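import Mathlib

/-! Continuous extenders between spaces of continuous functions with the pointwise topology. -/

namespace Pool.Agent.H278Z.TS

/-- `C_p(Z)`: the continuous real functions on `Z`, with the subspace topology from the product
`ℝ^Z` (the topology of pointwise convergence). -/
abbrev Cp (Z : Type) [TopologicalSpace Z] : Type := {f : Z → ℝ // Continuous f}

/-- `Y` is t-embedded in `Z`: there is a continuous extender `C_p(Y) → C_p(Z)`. -/
def TEmbedded {Z : Type} [TopologicalSpace Z] (Y : Set Z) : Prop :=
  ∃ φ : Cp Y → Cp Z, Continuous φ ∧ ∀ (f : Cp Y) (y : Y), (φ f).1 y.1 = f.1 y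

/-- Every closed subspace of `Z` is t-embedded in `Z`. -/
def TExtendial (Z : Type) [TopologicalSpace Z] : Prop :=
  ∀ Y : Set Z, IsClosed Y → TEmbedded Y

end Pool.Agent.H278Z.TS
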