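import Pool.Agent.H278Z.TS.Defs

namespace Pool.Agent.H278Z.TS

open Filter Topology Set

variable {Z : Type} [TopologicalSpace Z]

/-- continuity properties of an operator on functions -/
def Cts (Y : Set Z) (φ : (Z → ℝ) → Z → ℝ) : Prop :=
  (∀ z, Continuous fun f => φ f z) ∧ ∀ f, ContinuousOn f Y → Continuous (φ f)

/-- norm bound -/
def Bd (C : ℝ) (Y : Set Z) (φ : (Z → ℝ) → Z → ℝ) : Prop :=
  ∀ f ε, 0 ≤ ε → (∀ y ∈ Y, |f y| ≤ ε) → ∀ z, |φ f z| ≤ C * ε

/-- bounded extender -/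
def Ext (C : ℝ) (Y : Set Z) : Prop :=
  ∃ φ, Cts Y φ ∧ Bd C Y φ ∧ ∀ f, ∀ y ∈ Y, φ f y = f y

theorem tembedded_of (Y : Set Z) (φ : (Z → ℝ) → Z → ℝ) (h : Cts Y φ)
    (he : ∀ f, ∀ y ∈ Y, φ f y = f y) : TEmbedded Y := by
  classical
  let ex : Cp Y → Z → ℝ := fun f z => if hz : z ∈ Y then f.1 ⟨z, hz⟩ else 0
  have h1 : Continuous ex := by
    refine continuous_pi fun z => ?_
    by_cases hz : z ∈ Y
    · simp only [ex, dif_pos hz]
      exact (continuous_apply _).comp continuous_subtype_val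
    · simp only [ex, dif_neg hz]
      exact continuous_const
  have h2 : ∀ f : Cp Y, ContinuousOn (ex f) Y := by
    intro f
    rw [continuousOn_iff_continuous_domRestrict]
    have : Y.domRestrict (ex f) = f.1 := by
      funext y
      exact dif_pos y.2
    rw [this]
    exact f.2
  refine ⟨fun f => ⟨φ (ex f), h.2 _ (h2 f)⟩, ?_, fun f y => ?_⟩
  · exact Continuous.subtype_mk (continuous_pi fun z => (h.1 z).comp h1) _
  · show φ (ex f) y.1 = f.1 y
    rw [he _ _ y.2]
    simp [ex, y.2]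

theorem ext_empty (C : ℝ) (hC : 0 ≤ C) : Ext C (∅ : Set Z) :=
  ⟨fun _ _ => 0, ⟨fun _ => continuous_const, fun _ _ => continuous_const⟩,
    fun _ ε hε _ _ => by simpa using mul_nonneg hC hε, fun _ _ h => h.elim⟩

theorem glue_nat [CompactSpace Z] {Y F : Set Z} (hY : IsClosed Y) (E : ℕ → Set Z)
    (hE : ∀ i, IsClopen (E i)) (hEF : ∀ z, z ∉ F ↔ ∃ i, z ∈ E i) {C1 : ℝ} (hC1 : 0 ≤ C1)
    (hp : ∀ i, ∀ Y' ⊆ Y ∩ E i, IsClosed Y' → Ext C1 Y')
    (φ0 : (Z → ℝ) → Z → ℝ) (h0 : Cts Y φ0) (he : ∀ f, ∀ y ∈ Y, y ∈ F → φ0 f y = f y) :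
    ∃ φ, Cts Y φ ∧ (∀ f, ∀ y ∈ Y, φ f y = f y) ∧
      ∀ C0, 0 ≤ C0 → Bd C0 Y φ0 → Bd (C0 + C1 * (1 + C0)) Y φ := by
  classical
  let D : ℕ → Set Z := disjointed E
  have hD : ∀ i, IsClopen (D i) := by
    intro i
    refine disjointedRec (p := IsClopen) (fun t j ht => ?_) (hE i)
    exact ht.diff (hE j)
  have hDE : ∀ i, D i ⊆ E i := disjointed_subset E
  have hDF : ∀ z, z ∉ F ↔ ∃ i, z ∈ D i := by
    intro z
    rw [hEF, ← mem_iUnion, ← mem_iUnion, iUnion_disjointed]
  have hDd : ∀ i j z, z ∈ D i → z ∈ D j → i = j := by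
    intro i j z hi hj
    by_contra hne
    exact Set.disjoint_left.1 (disjoint_disjointed E hne) hi hj
  have hψ : ∀ i, Ext C1 (Y ∩ D i) := fun i =>
    hp i _ (inter_subset_inter_right _ (hDE i)) (hY.inter (hD i).isClosed)
  choose ψ hψ1 hψ2 hψ3 using hψ
  let H : (Z → ℝ) → Z → ℝ := fun g z => if h : ∃ i, z ∈ D i then ψ h.choose g z else 0
  have hH1 : ∀ g i z, z ∈ D i → H g z = ψ i g z := by
    intro g i z hz
    have h : ∃ i, z ∈ D i := ⟨i, hz⟩
    simp only [H, dif_pos h]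
    rw [hDd _ _ z h.choose_spec hz]
  have hH2 : ∀ g z, z ∈ F → H g z = 0 := by
    intro g z hz
    have h : ¬ ∃ i, z ∈ D i := fun h => (hDF z).2 h hz
    simp only [H, dif_neg h]
  have hH3 : ∀ z, Continuous fun g => H g z := by
    intro z
    by_cases hz : z ∈ F
    · simp only [hH2 _ z hz]
      exact continuous_const
    · obtain ⟨i, hi⟩ := (hDF z).1 hz
      simp only [hH1 _ i z hi]
      exact (hψ1 i).1 z
  have hH4 : ∀ g, ContinuousOn g Y → (∀ y ∈ Y, y ∈ F → g y = 0) → Continuous (H g) := by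
    intro g hg hg0
    rw [continuous_iff_continuousAt]
    intro z
    by_cases hz : z ∈ F
    · rw [ContinuousAt, hH2 g z hz, Metric.tendsto_nhds]
      intro ε hε
      obtain ⟨η, hη, hηε⟩ : ∃ η : ℝ, 0 < η ∧ C1 * η < ε := by
        refine ⟨ε / (C1 + 1), by positivity, ?_⟩
        rw [← mul_div_assoc, div_lt_iff₀ (by positivity)]
        nlinarith
      have hK : IsCompact (Y ∩ g ⁻¹' {t | η ≤ |t|}) :=
        (hg.preimage_isClosed_of_isClosed hY (isClosed_le continuous_const continuous_abs)).isCompact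
      obtain ⟨I, hI⟩ := hK.elim_finite_subcover D (fun i => (hD i).isOpen) (by
        rintro y ⟨hy, hy2⟩
        refine mem_iUnion.2 ((hDF y).1 fun hF => ?_)
        have : η ≤ |g y| := hy2
        rw [hg0 y hy hF, abs_zero] at this
        linarith)
      have hO : IsOpen (⋃ i ∈ I, D i)ᶜ :=
        (isClosed_biUnion_finset fun i _ => (hD i).isClosed).isOpen_compl
      have hzO : z ∈ (⋃ i ∈ I, D i)ᶜ := by
        intro h
        obtain ⟨i, -, hi⟩ := mem_iUnion₂.1 h
        exact (hDF z).2 ⟨i, hi⟩ hz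
      filter_upwards [hO.mem_nhds hzO] with w hw
      rw [Real.dist_eq, sub_zero]
      by_cases hwF : w ∈ F
      · rw [hH2 g w hwF, abs_zero]
        exact hε
      · obtain ⟨i, hi⟩ := (hDF w).1 hwF
        rw [hH1 g i w hi]
        refine lt_of_le_of_lt (hψ2 i g η hη.le ?_ w) hηε
        rintro y ⟨hy, hyi⟩
        by_contra hlt
        obtain ⟨j, hj, hyj⟩ := mem_iUnion₂.1 (hI ⟨hy, (not_le.1 hlt).le⟩)
        exact hw (mem_iUnion₂.2 ⟨j, hj, by rw [hDd j i y hyj hyi]; exact hi⟩)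
    · obtain ⟨i, hi⟩ := (hDF z).1 hz
      refine ((hψ1 i).2 g (hg.mono inter_subset_left)).continuousAt.congr ?_
      filter_upwards [(hD i).isOpen.mem_nhds hi] with w hw
      exact (hH1 g i w hw).symm
  refine ⟨fun f z => φ0 f z + H (fun w => f w - φ0 f w) z, ⟨fun z => ?_, fun f hf => ?_⟩,
    fun f y hy => ?_, fun C0 hC0 hb f ε hε hf z => ?_⟩
  · exact (h0.1 z).add ((hH3 z).comp
      (continuous_pi fun w => (continuous_apply w).sub (h0.1 w)))
  · refine (h0.2 f hf).add (hH4 _ (hf.sub (h0.2 f hf).continuousOn) fun y hy hF => ?_)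
    rw [he f y hy hF, sub_self]
  · by_cases hF : y ∈ F
    · simp only [hH2 _ y hF, he f y hy hF, add_zero]
    · obtain ⟨i, hi⟩ := (hDF y).1 hF
      simp only [hH1 _ i y hi, hψ3 i _ y ⟨hy, hi⟩]
      ring
  · have h1 := hb f ε hε hf
    have h2 : |H (fun w => f w - φ0 f w) z| ≤ C1 * ((1 + C0) * ε) := by
      by_cases hF : z ∈ F
      · rw [hH2 _ z hF, abs_zero]
        positivity
      · obtain ⟨i, hi⟩ := (hDF z).1 hF
        rw [hH1 _ i z hi]
        refine hψ2 i _ _ (by positivity) (fun y hy => ?_) z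
        calc |f y - φ0 f y| ≤ |f y| + |φ0 f y| := abs_sub _ _
          _ ≤ ε + C0 * ε := add_le_add (hf y hy.1) (h1 y)
          _ = (1 + C0) * ε := by ring
    calc |φ0 f z + H (fun w => f w - φ0 f w) z| ≤ |φ0 f z| + |H (fun w => f w - φ0 f w) z| :=
          abs_add_le _ _
      _ ≤ C0 * ε + C1 * ((1 + C0) * ε) := add_le_add (h1 z) h2
      _ = (C0 + C1 * (1 + C0)) * ε := by ring

theorem glue [CompactSpace Z] {ι : Type} [Countable ι] {Y F : Set Z} (hY : IsClosed Y)
    (E : ι → Set Z)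
    (hE : ∀ i, IsClopen (E i)) (hEF : ∀ z, z ∉ F ↔ ∃ i, z ∈ E i) {C1 : ℝ} (hC1 : 0 ≤ C1)
    (hp : ∀ i, ∀ Y' ⊆ Y ∩ E i, IsClosed Y' → Ext C1 Y')
    (φ0 : (Z → ℝ) → Z → ℝ) (h0 : Cts Y φ0) (he : ∀ f, ∀ y ∈ Y, y ∈ F → φ0 f y = f y) :
    ∃ φ, Cts Y φ ∧ (∀ f, ∀ y ∈ Y, φ f y = f y) ∧
      ∀ C0, 0 ≤ C0 → Bd C0 Y φ0 → Bd (C0 + C1 * (1 + C0)) Y φ := by
  obtain ⟨s, hs⟩ := exists_surjective_nat (Option ι)
  refine glue_nat hY (fun n => (s n).elim ∅ E) (fun n => ?_) (fun z => ?_) hC1 (fun n => ?_) φ0 h0 he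
  · cases s n with
    | none => exact isClopen_empty
    | some i => exact hE i
  · rw [hEF]
    constructor
    · rintro ⟨i, hi⟩
      obtain ⟨n, hn⟩ := hs (some i)
      exact ⟨n, by rw [hn]; exact hi⟩
    · rintro ⟨n, hn⟩
      cases h : s n with
      | none => rw [h] at hn; exact hn.elim
      | some i => rw [h] at hn; exact ⟨i, hn⟩
  · cases s n with
    | none =>
      intro Y' hY' _
      have : Y' = ∅ := eq_empty_of_subset_empty fun y hy => (hY' hy).2
      rw [this]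
      exact ext_empty C1 hC1
    | some i => exact hp i

/-- a countable closed set in a compact totally disconnected space is a retract -/
theorem exists_retraction [CompactSpace Z] [T2Space Z] [TotallyDisconnectedSpace Z] {A : Set Z}
    (hA : IsClosed A) (hc : A.Countable) (hne : A.Nonempty) :
    ∃ s : Z → Z, Continuous s ∧ (∀ z, s z ∈ A) ∧ ∀ a ∈ A, s a = a := by
  classical
  have : Countable A := hc.to_subtype
  have : Nonempty A := hne.to_subtype
  obtain ⟨e, he⟩ := exists_surjective_nat (A × A)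
  have h1 : ∀ p : A × A, ∃ U : Set Z, IsClopen U ∧ (p.1 ≠ p.2 → p.1.1 ∈ U ∧ p.2.1 ∉ U) := by
    intro p
    by_cases hp : p.1 = p.2
    · exact ⟨∅, isClopen_empty, fun h => absurd hp h⟩
    · obtain ⟨U, hU, a, b⟩ := exists_isClopen_of_totally_separated
        (show p.1.1 ≠ p.2.1 from fun h => hp (Subtype.ext h))
      exact ⟨U, hU, fun _ => ⟨a, b⟩⟩
  choose U hU1 hU2 using h1
  let j : Z → ℕ → Bool := fun z n => (U (e n)).boolIndicator z
  have hj : Continuous j := continuous_pi fun n =>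
    (continuous_boolIndicator_iff_isClopen _).2 (hU1 _)
  have : CompactSpace A := isCompact_iff_compactSpace.1 hA.isCompact
  let jA : A → ℕ → Bool := fun a => j a.1
  have hjA : Continuous jA := hj.comp continuous_subtype_val
  have hinj : Function.Injective jA := by
    intro a b hab
    by_contra hne
    obtain ⟨n, hn⟩ := he (a, b)
    have h2 := congrFun hab n
    obtain ⟨h3, h4⟩ := hU2 (a, b) hne
    simp only [jA, j, hn] at h2
    rw [(Set.mem_iff_boolIndicator _ _).1 h3, (Set.notMem_iff_boolIndicator _ _).1 h4] at h2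
    exact absurd h2 (by simp)
  have hemb := hjA.isClosedEmbedding hinj
  obtain ⟨R, hR1, hR2, hR3⟩ := PiNat.exists_retraction_of_isClosed hemb.isClosed_range
    (range_nonempty _)
  have h5 : ∀ z, ∃ a : A, jA a = R (j z) := fun z => by
    have : R (j z) ∈ range jA := hR2 ▸ mem_range_self _
    exact this
  choose s hs using h5
  refine ⟨fun z => (s z).1, continuous_subtype_val.comp ?_, fun z => (s z).2, fun a ha => ?_⟩
  · rw [hemb.isInducing.continuous_iff]
    have : jA ∘ s = R ∘ j := funext hs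
    rw [this]
    exact hR3.comp hj
  · have : s a = ⟨a, ha⟩ := hinj (by rw [hs]; exact hR1 _ ⟨⟨a, ha⟩, rfl⟩)
    simp only [this]

theorem cts_comp {Y : Set Z} {q : Z → Z} (hq : Continuous q) (hY : ∀ z, q z ∈ Y) :
    Cts Y fun f z => f (q z) :=
  ⟨fun z => continuous_apply (q z), fun _ hf => hf.comp_continuous hq hY⟩

theorem ext_countable [CompactSpace Z] [T2Space Z] [TotallyDisconnectedSpace Z] {A : Set Z}
    (hA : IsClosed A) (hc : A.Countable) : Ext 1 A := by
  rcases A.eq_empty_or_nonempty with rfl | hne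
  · exact ext_empty 1 zero_le_one
  obtain ⟨s, h1, h2, h3⟩ := exists_retraction hA hc hne
  exact ⟨fun f z => f (s z), cts_comp h1 h2, fun f ε _ hf z => by simpa using hf _ (h2 z),
    fun f y hy => by simp only [h3 y hy]⟩

end Pool.Agent.H278Z.TS
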