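import Pool.Agent.H278Z.TS.Stage

namespace Pool.Agent.H278Z.TS

open Filter Topology Set
open Pool.Agent.Helper292.ForceCH H453Z.Kw

/-- sections of a set of pairs over a basic neighbourhood -/
def BB (h : Om → Pt → ℕ) (S : Set (Pt × Pt)) (ξ : Om) (F : Finset Om) : Set Pt :=
  {w | ∃ z, (z, w) ∈ S ∧ ∀ δ ∈ F, (X h z δ ↔ X h ξ δ)}

structure Q (S : Om → Set (Pt × Pt)) (h : Om → Pt → ℕ) (β : Om) (r : Pt → ℕ) : Prop
    extends Q0 h β r where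
  meet : ∀ γ ≤ β, ∀ ξ ≤ β, ∀ F : Finset Om, (∀ δ ∈ F, δ < β) → Unb h β (BB h (S γ) ξ F) →
    ∃ n0, ∀ n, n0 ≤ n → ∃ z ∈ BB h (S γ) ξ F, r z = n
  pair : ∀ γ ≤ β, Acc2 h β (S γ) → ∀ n0 i : ℕ, ∃ n, n0 ≤ n ∧ n % 3 = i % 3 ∧
    ∃ p ∈ S γ, r p.1 = n ∧ r p.2 = n + 1

section loc

variable {h h' : Om → Pt → ℕ} {β : Om} (e : ∀ δ < β, h δ = h' δ)
include e

theorem X_loc (z : Pt) {δ : Om} (hδ : δ < β) : X h z δ ↔ X h' z δ := by
  simp only [X, e δ hδ]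

theorem Cpt.loc {C : Set Pt} (hC : Cpt h β C) : Cpt h' β C := by
  obtain ⟨F, h1, h2, h3⟩ := hC
  refine ⟨F, h1, fun z hz => ?_, fun z z' hzz => h3 z z' fun δ hδ => ?_⟩
  · obtain ⟨δ, a, b⟩ := h2 z hz
    exact ⟨δ, a, (X_loc e z (h1 δ a)).1 b⟩
  · rw [X_loc e z (h1 δ hδ), X_loc e z' (h1 δ hδ)]
    exact hzz δ hδ

theorem Unb.loc {B : Set Pt} (hB : Unb h β B) : Unb h' β B := by
  intro F hF
  obtain ⟨z, a, b⟩ := hB F hF
  exact ⟨z, a, fun δ hδ => by rw [← X_loc e z (hF δ hδ)]; exact b δ hδ⟩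

theorem Acc2.loc {S : Set (Pt × Pt)} (hS : Acc2 h β S) : Acc2 h' β S := by
  intro F hF
  obtain ⟨p, a, b, C, c1, c2, c3⟩ := hS F hF
  refine ⟨p, a, fun δ hδ => ?_, C, c1.loc e, fun δ hδ => ?_, c3⟩
  · rw [← X_loc e _ (hF δ hδ), ← X_loc e _ (hF δ hδ)]
    exact b δ hδ
  · rw [← e δ (hF δ hδ)]
    exact c2 δ hδ

theorem BB_loc (S : Set (Pt × Pt)) (ξ : Om) {F : Finset Om} (hF : ∀ δ ∈ F, δ < β) :
    BB h S ξ F = BB h' S ξ F := by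
  ext w
  refine exists_congr fun z => and_congr_right fun _ => forall₂_congr fun δ hδ => ?_
  rw [X_loc e _ (hF δ hδ), X_loc e _ (hF δ hδ)]

theorem Q.loc {S : Om → Set (Pt × Pt)} {r : Pt → ℕ} (q : Q S h β r) : Q S h' β r := by
  have e' : ∀ δ < β, h' δ = h δ := fun δ hδ => (e δ hδ).symm
  refine ⟨⟨fun n => (q.cpt n).loc e, fun δ hδ => ?_, fun δ hδ => ?_⟩, fun γ hγ ξ hξ F hF hu => ?_,
    fun γ hγ ha => q.pair γ hγ (ha.loc e')⟩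
  · obtain ⟨n, hn⟩ := q.prop δ hδ
    exact ⟨n, fun z hz => hn z ((X_loc e z hδ).2 hz)⟩
  · rw [← e δ hδ]
    exact q.sat δ hδ
  · rw [← BB_loc e _ _ hF] at hu ⊢
    exact q.meet γ hγ ξ hξ F hF (hu.loc e')

end loc

theorem exists_rec {R : Type} [Inhabited R] (Q : Om → (Om → R) → R → Prop)
    (hloc : ∀ a f f' r, (∀ b < a, f b = f' b) → Q a f r → Q a f' r)
    (hex : ∀ a f, (∀ b < a, Q b f (f b)) → ∃ r, Q a f r) : ∃ f : Om → R, ∀ a, Q a f (f a) := by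
  classical
  let tr : (a : Om) → ((b : Om) → b < a → R) → Om → R :=
    fun a p b => if h : b < a then p b h else default
  let F : (a : Om) → ((b : Om) → b < a → R) → R :=
    fun a p => if h : ∃ r, Q a (tr a p) r then h.choose else default
  let f : Om → R := (wellFounded_lt (α := Om)).fix F
  have hf : ∀ a, f a = F a (fun b _ => f b) := fun a => (wellFounded_lt (α := Om)).fix_eq F a
  refine ⟨f, fun a => ?_⟩
  induction a using WellFoundedLT.induction with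
  | ind a ih =>
    have htr : ∀ b < a, f b = tr a (fun b _ => f b) b := by
      intro b hb
      simp [tr, hb]
    obtain ⟨r, hr⟩ := hex a f ih
    have h1 : ∃ r, Q a (tr a (fun b _ => f b)) r := ⟨r, hloc a f _ r htr hr⟩
    have h2 : Q a (tr a (fun b _ => f b)) (f a) := by
      rw [hf a]
      show Q a (tr a (fun b _ => f b)) (dite _ _ _)
      rw [dif_pos h1]
      exact h1.choose_spec
    exact hloc a _ f _ (fun b hb => (htr b hb).symm) h2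

theorem exists_Q (S : Om → Set (Pt × Pt)) (hS : ∀ γ, ∀ p ∈ S γ, p.1 < γ ∧ p.2 < γ) :
    ∃ h : Om → Pt → ℕ, ∀ β, Q S h β (h β) := by
  classical
  refine exists_rec (fun β h r => Q S h β r) (fun a f f' r e q => q.loc e) fun β h H => ?_
  have : Countable (Iic β) := (countable_Iic' β).to_subtype
  have : Nonempty (Iic β) := ⟨⟨β, le_refl β⟩⟩
  obtain ⟨s, hs⟩ := exists_surjective_nat (Iic β × Iic β × Finset (Iic β))
  have hle : ∀ γ : Iic β, (γ.1 : Pt) ≤ β := fun γ => WithTop.coe_le_coe.2 γ.2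
  obtain ⟨r, r1, r2, r3⟩ := stage2 (fun b hb => (H b hb).toQ0)
    (fun j => BB h (S (s j).1) (s j).2.1 ((s j).2.2.image Subtype.val))
    (fun j w ⟨z, hz, _⟩ => (hS _ _ hz).2.trans_le (hle _)) (fun j => S (s j).1)
    (fun j p hp => ⟨(hS _ _ hp).1.trans_le (hle _), (hS _ _ hp).2.trans_le (hle _)⟩)
  refine ⟨r, r1, fun γ hγ ξ hξ F hF => ?_, fun γ hγ => ?_⟩
  · obtain ⟨j, hj⟩ := hs (⟨γ, hγ⟩, ⟨ξ, hξ⟩, F.subtype (· ∈ Iic β))
    have h1 : (F.subtype (· ∈ Iic β)).image Subtype.val = F := by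
      ext δ
      simp only [Finset.mem_image, Finset.mem_subtype]
      exact ⟨fun ⟨a, b, c⟩ => c ▸ b, fun a => ⟨⟨δ, (hF δ a).le⟩, a, rfl⟩⟩
    have := r2 j
    simp only [hj, h1] at this
    exact this
  · obtain ⟨j, hj⟩ := hs (⟨γ, hγ⟩, ⟨γ, hγ⟩, ∅)
    have := r3 j
    simp only [hj] at this
    exact this

theorem exists_guess2 (hD : Diamond) : ∃ S : Om → Set (Pt × Pt),
    (∀ γ, ∀ p ∈ S γ, p.1 < γ ∧ p.2 < γ) ∧ ∀ S0 : Set (Pt × Pt),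
      (∀ μ : Om, ∃ a b : Om, ((a : Pt), (b : Pt)) ∈ S0 ∧ μ < a ∧ μ < b) →
      ∃ γ, S γ ⊆ S0 ∧ ∀ F : Finset Om, (∀ δ ∈ F, δ < γ) →
        ∃ a b : Om, ((a : Pt), (b : Pt)) ∈ S γ ∧ ∀ δ ∈ F, δ < a ∧ δ < b := by
  classical
  obtain ⟨A, hA⟩ := hD
  obtain ⟨π⟩ : Nonempty (Om × Om ↪ Om) := by
    rw [← Cardinal.le_def]
    simp
  refine ⟨fun γ => {p | ∃ a b : Om, p = ((a : Pt), (b : Pt)) ∧ a < γ ∧ b < γ ∧ π (a, b) < γ ∧
    A γ (π (a, b))}, ?_, fun S0 hS0 => ?_⟩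
  · rintro γ _ ⟨a, b, rfl, h1, h2, -⟩
    exact ⟨WithTop.coe_lt_coe.2 h1, WithTop.coe_lt_coe.2 h2⟩
  choose wa wb hw1 hw2 hw3 using hS0
  obtain ⟨γ, ⟨⟨b0, hb0⟩, hγ⟩, hg⟩ := hA (fun c => ∃ a b : Om, c = π (a, b) ∧
    ((a : Pt), (b : Pt)) ∈ S0) _ (isClub_closure fun μ => max (wa μ) (max (wb μ) (π (wa μ, wb μ))))
  refine ⟨γ, ?_, fun F hF => ?_⟩
  · rintro _ ⟨a, b, rfl, -, -, h3, h4⟩
    obtain ⟨a', b', h5, h6⟩ := (hg _ h3).2 h4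
    obtain ⟨rfl, rfl⟩ := Prod.mk.inj (π.injective h5)
    exact h6
  · have hne : (insert b0 F).Nonempty := Finset.insert_nonempty _ _
    have h3 : (insert b0 F).max' hne < γ := by
      rw [Finset.max'_lt_iff]
      intro y hy
      rcases Finset.mem_insert.1 hy with rfl | h
      · exact hb0
      · exact hF y h
    have h4 := hγ _ h3
    simp only [max_lt_iff] at h4
    refine ⟨wa _, wb _, ⟨_, _, rfl, h4.1, h4.2.1, h4.2.2, (hg _ h4.2.2).1 ⟨_, _, rfl, hw1 _⟩⟩,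
      fun δ hδ => ?_⟩
    have := Finset.le_max' _ _ (Finset.mem_insert_of_mem (b := b0) hδ)
    exact ⟨this.trans_lt (hw2 _), this.trans_lt (hw3 _)⟩

variable {S : Om → Set (Pt × Pt)} {h : Om → Pt → ℕ}

theorem Q0.big {β : Om} {r : Pt → ℕ} (q : Q0 h β r) (F : Finset Om) :
    ∃ n0, ∀ n, n0 ≤ n → ∀ δ ∈ F, δ < β → (∀ z, n ≤ r z → ¬ X h z δ) ∧ Sat (h δ) δ (V r β n) := by
  refine exists_nat_finset F _ fun δ _ => ?_
  by_cases hδ : δ < β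
  · obtain ⟨n1, h1⟩ := q.prop δ hδ
    obtain ⟨n2, h2⟩ := q.sat δ hδ
    refine ⟨max (n1 + 1) n2, fun n hn _ => ⟨fun z hz hx => ?_, h2 n (le_of_max_le_right hn)⟩⟩
    have := h1 z hx
    have := le_of_max_le_left hn
    omega
  · exact ⟨0, fun n _ h' => absurd h' hδ⟩

theorem persist1 (hS : ∀ γ, ∀ p ∈ S γ, p.1 < γ ∧ p.2 < γ) (HQ : ∀ β, Q S h β (h β))
    (I : Set Om) (hI : IsLowerSet I) (γ ξ : Om) (F0 : Finset Om)
    (h1 : ∀ μ ∉ I, γ ≤ μ ∧ ξ ≤ μ ∧ ∀ δ ∈ F0, δ < μ)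
    (h2 : ∀ F : Finset Om, (∀ δ ∈ F, δ ∈ I) → ∃ z ∈ BB h (S γ) ξ F0, ∀ δ ∈ F, ¬ X h z δ) :
    ∀ μ ∉ I, ∃ n0, ∀ n, n0 ≤ n → ∃ z ∈ BB h (S γ) ξ F0, z < μ ∧ h μ z = n := by
  have key : ∀ μ ∉ I, Unb h μ (BB h (S γ) ξ F0) →
      ∃ n0, ∀ n, n0 ≤ n → ∃ z ∈ BB h (S γ) ξ F0, z < μ ∧ h μ z = n := by
    intro μ hμ hu
    obtain ⟨a, b, c⟩ := h1 μ hμ
    obtain ⟨n0, hn⟩ := (HQ μ).meet γ a ξ b F0 c hu
    refine ⟨n0, fun n hn0 => ?_⟩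
    obtain ⟨z, z1, z2⟩ := hn n hn0
    obtain ⟨w, w1, -⟩ := id z1
    exact ⟨z, z1, (hS _ _ w1).2.trans_le (WithTop.coe_le_coe.2 a), z2⟩
  have hU : ∀ β, Unb h β (BB h (S γ) ξ F0) := by
    intro β
    induction β using WellFoundedLT.induction with
    | ind β ih =>
      intro F hF
      by_cases hFI : ∀ δ ∈ F, δ ∈ I
      · exact h2 F hFI
      push Not at hFI
      obtain ⟨δ0, d1, d2⟩ := hFI
      have hne : F.Nonempty := ⟨δ0, d1⟩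
      have hμ : F.max' hne ∉ I := fun e => d2 (hI (F.le_max' _ d1) e)
      obtain ⟨n0, hn0⟩ := key _ hμ (ih _ (hF _ (F.max'_mem hne)))
      obtain ⟨n1, hn1⟩ := (HQ (F.max' hne)).toQ0.big F
      obtain ⟨z, z1, z2, z3⟩ := hn0 (3 * (n0 + n1) + 1) (by omega)
      refine ⟨z, z1, fun δ hδ => ?_⟩
      rcases (F.le_max' δ hδ).lt_or_eq with e | e
      · exact (hn1 n1 le_rfl δ hδ e).1 z (by omega)
      · rw [e, X_lt z2, z3]
        omega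
  exact fun μ hμ => key μ hμ (hU μ)

theorem acc2_init (HQ : ∀ β, Q S h β (h β)) {γ : Om} {T : Set (Pt × Pt)}
    (hT : ∀ p ∈ T, p.1 < γ ∧ p.2 < γ) (hne : ∀ p ∈ T, p.1 ≠ p.2)
    (hc : ∀ F : Finset Om, (∀ δ ∈ F, δ < γ) →
      ∃ a b : Om, ((a : Pt), (b : Pt)) ∈ T ∧ ∀ δ ∈ F, δ < a ∧ δ < b) : Acc2 h γ T := by
  intro F hF
  obtain ⟨a, b, h1, h2⟩ := hc F hF
  have ha : a < γ := WithTop.coe_lt_coe.1 (hT _ h1).1
  have hb : b < γ := WithTop.coe_lt_coe.1 (hT _ h1).2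
  have hab : (a : Pt) ≠ b := hne _ h1
  obtain ⟨C0, c1, c2, c3⟩ : ∃ C0, Cpt h γ C0 ∧ (a : Pt) ∈ C0 ∧ (b : Pt) ∉ C0 := by
    have u1 := cpt_basic (h := h) {a} (by simpa using ha)
    have u2 := cpt_basic (h := h) {b} (by simpa using hb)
    rcases lt_or_gt_of_ne hab with e | e
    · refine ⟨_, u1, ⟨a, by simp, X_self a⟩, ?_⟩
      rintro ⟨δ, d1, d2⟩
      rw [Finset.mem_singleton.1 d1] at d2
      exact absurd d2.le (not_le.2 e)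
    · refine ⟨_, u1.diff u2, ⟨⟨a, by simp, X_self a⟩, ?_⟩, fun e' => e'.2 ⟨b, by simp, X_self b⟩⟩
      rintro ⟨δ, d1, d2⟩
      rw [Finset.mem_singleton.1 d1] at d2
      exact absurd d2.le (not_le.2 e)
  obtain ⟨C, k1, k2, k3, k4⟩ := saturate (fun b _ => (HQ b).toQ0) F hF c1
  refine ⟨_, h1, fun δ hδ => ⟨fun e => ?_, fun e => ?_⟩, C, k1, k3, k2 c2, fun e => ?_⟩
  · exact absurd (WithTop.coe_le_coe.1 e.le) (not_le.2 (h2 δ hδ).1)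
  · exact absurd (WithTop.coe_le_coe.1 e.le) (not_le.2 (h2 δ hδ).2)
  · rcases k4 _ e with e' | ⟨δ, d1, d2⟩
    · exact c3 e'
    · exact absurd (WithTop.coe_lt_coe.1 d2) (not_lt.2 (h2 δ d1).2.le)

theorem persist2 (hS : ∀ γ, ∀ p ∈ S γ, p.1 < γ ∧ p.2 < γ) (HQ : ∀ β, Q S h β (h β))
    {γ : Om} (h0 : Acc2 h γ (S γ)) (β : Om) (hβ : γ ≤ β) : Acc2 h β (S γ) := by
  induction β using WellFoundedLT.induction with
  | ind β ih =>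
    intro F hF
    by_cases hFI : ∀ δ ∈ F, δ < γ
    · obtain ⟨p, a, b, C, c1, c2⟩ := h0 F hFI
      exact ⟨p, a, b, C, c1.mono hβ, c2⟩
    push Not at hFI
    obtain ⟨δ0, d1, d2⟩ := hFI
    have hne : F.Nonempty := ⟨δ0, d1⟩
    have hμ : γ ≤ F.max' hne := d2.trans (F.le_max' _ d1)
    have hμβ := hF _ (F.max'_mem hne)
    obtain ⟨n1, hn1⟩ := (HQ (F.max' hne)).toQ0.big F
    obtain ⟨n, a1, a2, p, a3, a4, a5⟩ := (HQ _).pair γ hμ (ih _ hμβ hμ) n1 1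
    have b1 := (hS _ _ a3).1.trans_le (WithTop.coe_le_coe.2 hμ)
    have b2 := (hS _ _ a3).2.trans_le (WithTop.coe_le_coe.2 hμ)
    refine ⟨p, a3, fun δ hδ => ?_, V (h (F.max' hne)) (F.max' hne) n, ((HQ _).cpt n).mono hμβ.le,
      fun δ hδ => ?_, ⟨b1, a4.le⟩, fun e => ?_⟩
    · rcases (F.le_max' δ hδ).lt_or_eq with e | e
      · exact ⟨(hn1 n a1 δ hδ e).1 _ a4.ge, (hn1 n a1 δ hδ e).1 _ (by omega)⟩
      · rw [e, X_lt b1, X_lt b2, a4, a5]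
        omega
    · rcases (F.le_max' δ hδ).lt_or_eq with e | e
      · exact (hn1 n a1 δ hδ e).2
      · rw [← e]
        exact sat_V _ _ _
    · have := e.2
      omega

theorem split (hS : ∀ γ, ∀ p ∈ S γ, p.1 < γ ∧ p.2 < γ) (HQ : ∀ β, Q S h β (h β))
    {γ β : Om} (hβ : γ ≤ β) (h0 : Acc2 h β (S γ)) (F0 : Finset Om) (hF0 : ∀ δ ∈ F0, δ ≤ β)
    (F : Finset Om) (hF : ∀ δ ∈ F, δ ≤ β) : ∃ z ∈ BB h (S γ) β F0, ∀ δ ∈ F, ¬ X h z δ := by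
  classical
  obtain ⟨n1, hn1⟩ := (HQ β).toQ0.big (F0 ∪ F)
  obtain ⟨n, a1, a2, p, a3, a4, a5⟩ := (HQ _).pair γ hβ h0 n1 0
  have b1 := (hS _ _ a3).1.trans_le (WithTop.coe_le_coe.2 hβ)
  have b2 := (hS _ _ a3).2.trans_le (WithTop.coe_le_coe.2 hβ)
  refine ⟨p.2, ⟨p.1, a3, fun δ hδ => ?_⟩, fun δ hδ => ?_⟩
  · rcases (hF0 δ hδ).lt_or_eq with e | e
    · exact ⟨fun e' => absurd e' ((hn1 n a1 δ (Finset.mem_union_left _ hδ) e).1 _ a4.ge),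
        fun e' => absurd (WithTop.coe_le_coe.1 e'.le) (not_le.2 e)⟩
    · rw [e, X_lt b1, a4]
      exact ⟨fun _ => X_self β, fun _ => a2⟩
  · rcases (hF δ hδ).lt_or_eq with e | e
    · exact (hn1 n a1 δ (Finset.mem_union_right _ hδ) e).1 _ (by omega)
    · rw [e, X_lt b2, a5]
      omega

end Pool.Agent.H278Z.TS
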