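import Pool.Agent.H278Z.TS.Glue

namespace Pool.Agent.H278Z.TS

open Filter Topology Set

/-- The properties of the Ostaszewski type compact space which are used. -/
structure Ost (K : Type) [TopologicalSpace K] (o : K) : Prop where
  unc : ¬ (univ : Set K).Countable
  loc : ∀ z, z ≠ o → ∃ U : Set K, IsClopen U ∧ z ∈ U ∧ o ∉ U ∧ U.Countable
  ret : ∀ C : Set K, C.Countable → o ∉ C → ∃ ρ : K → K, Continuous ρ ∧ (∀ z, ρ z ∉ C) ∧
    {z | ρ z ≠ z}.Countable ∧ ρ o = o
  one : ∀ A : Set K, IsClosed A → A.Countable ∨ Aᶜ.Countable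
  two : ∀ Y : Set (K × K), IsClosed Y → ∃ C : Set K, C.Countable ∧
    ((∀ a b, a ∉ C → b ∉ C → (a, b) ∈ Y) ∨ ∀ a b, a ∉ C → b ∉ C → (a, b) ∈ Y → a = b)

variable {K : Type} [TopologicalSpace K] [CompactSpace K] [T2Space K]
  [TotallyDisconnectedSpace K] {o : K}

omit [T2Space K] [TotallyDisconnectedSpace K] in
theorem Ost.countable_of_notMem (h : Ost K o) {A : Set K} (hA : IsClosed A) (ho : o ∉ A) :
    A.Countable := by
  choose! U h1 h2 h3 h4 using h.loc
  obtain ⟨I, hI1, hI2⟩ := hA.isCompact.elim_nhds_subcover U (fun z hz =>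
    (h1 z fun e => ho (e ▸ hz)).isOpen.mem_nhds (h2 z fun e => ho (e ▸ hz)))
  exact (I.countable_toSet.biUnion fun z hz => h4 z fun e => ho (e ▸ hI1 z hz)).mono hI2

omit [T2Space K] [TotallyDisconnectedSpace K] in
theorem Ost.mem_of_cocountable (h : Ost K o) {A : Set K} (hA : IsClosed A) (hc : Aᶜ.Countable) :
    o ∈ A := by
  by_contra ho
  exact h.unc (by rw [← union_compl_self A]; exact (h.countable_of_notMem hA ho).union hc)

omit [CompactSpace K] [T2Space K] [TotallyDisconnectedSpace K] in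
/-- a countable exceptional set for a closed set -/
theorem Ost.exc (h : Ost K o) {A : Set K} (hA : IsClosed A) :
    ∃ C : Set K, C.Countable ∧ ∀ b, b ∉ C → (b ∈ A ↔ Aᶜ.Countable) := by
  by_cases hc : Aᶜ.Countable
  · exact ⟨Aᶜ, hc, fun b hb => ⟨fun _ => hc, fun _ => not_not.1 hb⟩⟩
  · exact ⟨A, (h.one A hA).resolve_right hc, fun b hb => ⟨fun h' => absurd h' hb,
      fun h' => absurd h' hc⟩⟩

omit [CompactSpace K] [T2Space K] [TotallyDisconnectedSpace K] in
/-- retraction data -/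
theorem Ost.data (h : Ost K o) {C0 : Set K} (hC0 : C0.Countable) :
    ∃ (ρ : K → K) (ι : Type) (_ : Countable ι) (U : ι → Set K), Continuous ρ ∧
      (∀ z, ρ z = o ∨ ρ z ∉ C0) ∧ (∀ i, IsClopen (U i) ∧ (U i).Countable) ∧
      ∀ z, (∀ i, z ∉ U i) → ρ z = z := by
  obtain ⟨ρ, h1, h2, h3, h4⟩ := h.ret (C0 \ {o}) (hC0.mono sdiff_subset) (fun h => h.2 rfl)
  choose! U u1 u2 u3 u4 using h.loc
  have hne : ∀ i : {z | ρ z ≠ z}, i.1 ≠ o := fun i e => i.2 (by rw [e, h4])
  refine ⟨ρ, {z | ρ z ≠ z}, h3.to_subtype, fun i => U i.1, h1, fun z => ?_,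
    fun i => ⟨u1 _ (hne i), u4 _ (hne i)⟩, fun z hz => ?_⟩
  · by_contra hn
    push Not at hn
    exact h2 z ⟨hn.2, hn.1⟩
  · by_contra hn
    exact hz ⟨z, hn⟩ (u2 _ (hne ⟨z, hn⟩))

theorem three {Z : Type} [TopologicalSpace Z] {Y : Set Z} {q1 q2 q3 : Z → Z} (c1 : Continuous q1)
    (c2 : Continuous q2) (c3 : Continuous q3) (m1 : ∀ z, q1 z ∈ Y) (m2 : ∀ z, q2 z ∈ Y)
    (m3 : ∀ z, q3 z ∈ Y) :
    Cts Y (fun f z => f (q1 z) + f (q2 z) - f (q3 z)) ∧
      Bd 3 Y (fun f z => f (q1 z) + f (q2 z) - f (q3 z)) := by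
  refine ⟨⟨fun z => by fun_prop, fun f hf => ((hf.comp_continuous c1 m1).add
    (hf.comp_continuous c2 m2)).sub (hf.comp_continuous c3 m3)⟩, fun f ε _ hf z => ?_⟩
  have a1 := abs_le.1 (hf _ (m1 z))
  have a2 := abs_le.1 (hf _ (m2 z))
  have a3 := abs_le.1 (hf _ (m3 z))
  rw [abs_le]
  constructor <;> linarith [a1.1, a1.2, a2.1, a2.2, a3.1, a3.2]

/-- closed sets with countable first projection -/
theorem Ost.strip (h : Ost K o) {Y : Set (K × K)} (hY : IsClosed Y) {W : Set K}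
    (hW : W.Countable) (hYW : ∀ p ∈ Y, p.1 ∈ W) : Ext 7 Y := by
  have hsec : ∀ a : K, IsClosed {b | (a, b) ∈ Y} := fun a => hY.preimage (by fun_prop)
  choose Cx hCx1 hCx2 using fun a => h.exc (hsec a)
  have hC0 : (⋃ a ∈ W, Cx a).Countable := hW.biUnion fun a _ => hCx1 a
  obtain ⟨ρ, ι, _, U, r1, r2, r3, r4⟩ := h.data hC0
  let P : Set K := {a | {b | (a, b) ∈ Y}ᶜ.Countable}
  let P' : Set K := {a | (a, o) ∈ Y}
  have hPP' : P ⊆ P' := fun a ha => h.mem_of_cocountable (hsec a) ha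
  have hP'W : P' ⊆ W := fun a ha => hYW _ ha
  have hP'c : IsClosed P' := hY.preimage (by fun_prop)
  have hPb : ∀ b, b ∉ ⋃ a ∈ W, Cx a → ∀ a, (a, b) ∈ Y ↔ a ∈ P := by
    intro b hb a
    by_cases ha : a ∈ W
    · exact hCx2 a b fun h' => hb (mem_biUnion ha h')
    · exact ⟨fun h' => absurd (hYW _ h') ha, fun h' => absurd (hP'W (hPP' h')) ha⟩
  have hPc : IsClosed P := by
    obtain ⟨b, hb⟩ : ∃ b, b ∉ ⋃ a ∈ W, Cx a := by
      by_contra hn
      push Not at hn
      exact h.unc (hC0.mono fun b _ => hn b)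
    have : P = {a | (a, b) ∈ Y} := Set.ext fun a => (hPb b hb a).symm
    rw [this]
    exact hY.preimage (by fun_prop)
  have hPρ : ∀ a ∈ P, ∀ z, (a, ρ z) ∈ Y := by
    intro a ha z
    rcases r2 z with e | e
    · rw [e]; exact hPP' ha
    · exact (hPb _ e a).2 ha
  have hF : ∀ p ∈ Y, (∀ i, p.2 ∉ U i) → ρ p.2 = p.2 ∧ (p.1 ∈ P ∨ p.2 = o ∧ p.1 ∈ P') := by
    rintro ⟨a, b⟩ hp hb
    have e := r4 b hb
    refine ⟨e, ?_⟩
    rcases r2 b with e' | e'
    · rw [e] at e'
      exact Or.inr ⟨e', by rw [e'] at hp; exact hp⟩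
    · rw [e] at e'
      exact Or.inl ((hPb b e' a).1 hp)
  have key : ∃ φ0, Cts Y φ0 ∧ Bd 3 Y φ0 ∧ ∀ f, ∀ y ∈ Y, y ∈ {p : K × K | ∀ i, p.2 ∉ U i} →
      φ0 f y = f y := by
    rcases P'.eq_empty_or_nonempty with h0 | hne'
    · refine ⟨fun _ _ => 0, ⟨fun _ => continuous_const, fun _ _ => continuous_const⟩,
        fun _ ε hε _ _ => by simpa using hε, fun f y hy hyF => ?_⟩
      have : y.1 ∈ P' := by
        rcases (hF y hy hyF).2 with e | e
        · exact hPP' e
        · exact e.2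
      rw [h0] at this
      exact this.elim
    obtain ⟨s', s1, s2, s3⟩ := exists_retraction hP'c (hW.mono hP'W) hne'
    rcases P.eq_empty_or_nonempty with h0 | hne
    · obtain ⟨a, b⟩ := three (Y := Y) (q1 := fun p => (s' p.1, o)) (q2 := fun p => (s' p.1, o))
        (q3 := fun p => (s' p.1, o)) (by fun_prop) (by fun_prop) (by fun_prop)
        (fun p => s2 p.1) (fun p => s2 p.1) (fun p => s2 p.1)
      refine ⟨_, a, b, fun f y hy hyF => ?_⟩
      rcases (hF y hy hyF).2 with e | e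
      · rw [h0] at e
        exact e.elim
      · simp only [s3 _ e.2, ← e.1]
        ring
    obtain ⟨s, t1, t2, t3⟩ := exists_retraction hPc (hW.mono (hPP'.trans hP'W)) hne
    obtain ⟨a, b⟩ := three (Y := Y) (q1 := fun p => (s p.1, ρ p.2)) (q2 := fun p => (s' p.1, o))
      (q3 := fun p => (s p.1, o)) (by fun_prop) (by fun_prop) (by fun_prop)
      (fun p => hPρ _ (t2 p.1) p.2) (fun p => s2 p.1) (fun p => hPP' (t2 p.1))
    refine ⟨_, a, b, fun f y hy hyF => ?_⟩
    obtain ⟨e0, e | e⟩ := hF y hy hyF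
    · simp only [t3 _ e, s3 _ (hPP' e), e0]
      ring
    · simp only [s3 _ e.2, e0]
      rw [← e.1]
      ring
  obtain ⟨φ0, k1, k2, k3⟩ := key
  obtain ⟨φ, f1, f2, f3⟩ := glue (F := {p : K × K | ∀ i, p.2 ∉ U i}) hY
    (fun i => Prod.snd ⁻¹' U i) (fun i => (r3 i).1.preimage continuous_snd)
    (fun z => by simp) zero_le_one (fun i Y' hY' hc => ext_countable hc
      ((hW.prod (r3 i).2).mono fun p hp => mem_prod.2 ⟨hYW p (hY' hp).1, (hY' hp).2⟩)) φ0 k1 k3
  refine ⟨φ, f1, ?_, f2⟩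
  have := f3 3 (by norm_num) k2
  norm_num at this
  exact this

omit [CompactSpace K] [T2Space K] [TotallyDisconnectedSpace K] in
theorem Ext.swap {Y : Set (K × K)} {C : ℝ} (h : Ext C (Prod.swap ⁻¹' Y)) : Ext C Y := by
  obtain ⟨φ, ⟨h1, h2⟩, h3, h4⟩ := h
  refine ⟨fun f z => φ (fun w => f w.swap) z.swap, ⟨fun z => (h1 _).comp (by fun_prop),
    fun f hf => (h2 _ ?_).comp continuous_swap⟩, fun f ε hε hf z => h3 _ ε hε (fun y hy => hf _ hy) _,
    fun f y hy => ?_⟩
  · exact hf.comp continuous_swap.continuousOn fun _ hp => hp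
  · simp only
    rw [h4 _ _ (by simpa using hy)]
    simp

/-- the median of `s`, `t` and `0` -/
noncomputable def med (s t : ℝ) : ℝ := min (max s 0) (max t 0) - min (max (-s) 0) (max (-t) 0)

theorem med_self (s : ℝ) : med s s = s := by
  simp only [med, min_self]
  exact max_zero_sub_max_neg_zero_eq_self s

theorem med_zero_left (t : ℝ) : med 0 t = 0 := by simp [med]

theorem med_zero_right (s : ℝ) : med s 0 = 0 := by simp [med]

theorem continuous_med {X : Type} [TopologicalSpace X] {a b : X → ℝ} (ha : Continuous a)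
    (hb : Continuous b) : Continuous fun x => med (a x) (b x) := by
  unfold med
  fun_prop

theorem Ost.textendial (h : Ost K o) : TExtendial (K × K) := by
  classical
  intro Y hY
  obtain ⟨C2, hC2, hcase⟩ := h.two Y hY
  have hA : IsClosed {b | (o, b) ∈ Y} := hY.preimage (by fun_prop)
  have hB : IsClosed {a | (a, o) ∈ Y} := hY.preimage (by fun_prop)
  have hD : IsClosed {a | (a, a) ∈ Y} := hY.preimage (by fun_prop)
  obtain ⟨CA, hCA1, hCA2⟩ := h.exc hA
  obtain ⟨CB, hCB1, hCB2⟩ := h.exc hB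
  obtain ⟨CD, hCD1, hCD2⟩ := h.exc hD
  obtain ⟨ρ, ι, _, U, r1, r2, r3, r4⟩ := h.data (((hC2.union hCA1).union hCB1).union hCD1)
  simp only [mem_union, not_or] at r2
  have key : ∃ φ0, Cts Y φ0 ∧ ∀ f, ∀ y ∈ Y, y ∈ {p : K × K | (∀ i, p.1 ∉ U i) ∧ ∀ i, p.2 ∉ U i} →
      φ0 f y = f y := by
    rcases hcase with hfull | hdiag
    · have h1 : ∀ a b, a ∉ C2 → (b = o ∨ b ∉ C2) → (a, b) ∈ Y := by
        rintro a b ha (rfl | hb)
        · exact h.mem_of_cocountable (A := {b | (a, b) ∈ Y}) (hY.preimage (by fun_prop))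
            (hC2.mono fun b hb => by_contra fun hn => hb (hfull a b ha hn))
        · exact hfull a b ha hb
      have h2 : ∀ a b, (a = o ∨ a ∉ C2) → (b = o ∨ b ∉ C2) → (a, b) ∈ Y := by
        rintro a b (rfl | ha) hb
        · exact h.mem_of_cocountable (A := {a | (a, b) ∈ Y}) (hY.preimage (by fun_prop))
            (hC2.mono fun a ha => by_contra fun hn => ha (h1 a b hn hb))
        · exact h1 a b ha hb
      refine ⟨_, cts_comp (q := fun p : K × K => (ρ p.1, ρ p.2)) (by fun_prop) fun p =>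
        h2 _ _ ((r2 _).imp id fun e => e.1.1.1) ((r2 _).imp id fun e => e.1.1.1),
        fun f y _ hyF => ?_⟩
      simp only [r4 _ hyF.1, r4 _ hyF.2]
    have hF : ∀ a b, (a, b) ∈ Y → (∀ i, a ∉ U i) → (∀ i, b ∉ U i) →
        (a = o ∧ b = o) ∨ (a = o ∧ {b | (o, b) ∈ Y}ᶜ.Countable) ∨
        (b = o ∧ {a | (a, o) ∈ Y}ᶜ.Countable) ∨ (a = b ∧ {a | (a, a) ∈ Y}ᶜ.Countable) := by
      intro a b hab ha hb
      have ea := r2 a
      have eb := r2 b
      rw [r4 a ha] at ea
      rw [r4 b hb] at eb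
      rcases ea with rfl | ea
      · rcases eb with rfl | eb
        · exact Or.inl ⟨rfl, rfl⟩
        · exact Or.inr (Or.inl ⟨rfl, (hCA2 b eb.1.1.2).1 hab⟩)
      · rcases eb with rfl | eb
        · exact Or.inr (Or.inr (Or.inl ⟨rfl, (hCB2 a ea.1.2).1 hab⟩))
        · obtain rfl := hdiag a b ea.1.1.1 eb.1.1.1 hab
          exact Or.inr (Or.inr (Or.inr ⟨rfl, (hCD2 a ea.2).1 hab⟩))
    by_cases hoo : (o, o) ∈ Y
    swap
    · refine ⟨fun _ _ => 0, ⟨fun _ => continuous_const, fun _ _ => continuous_const⟩, ?_⟩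
      rintro f ⟨a, b⟩ hy hyF
      exfalso
      rcases hF a b hy hyF.1 hyF.2 with e | e | e | e
      · rw [e.1, e.2] at hy
        exact hoo hy
      · exact hoo (h.mem_of_cocountable hA e.2)
      · exact hoo (h.mem_of_cocountable hB e.2)
      · exact hoo (h.mem_of_cocountable hD e.2)
    have hρo : ρ o = o := by
      rcases r2 o with e | e
      · exact e
      · refine r4 o fun i hi => ?_
        have h1 := h.mem_of_cocountable (r3 i).1.compl.isClosed (by simpa using (r3 i).2)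
        exact h1 hi
    obtain ⟨pA, a1, a2, a3, a4⟩ : ∃ pA : K → K × K, Continuous pA ∧ (∀ z, pA z ∈ Y) ∧
        pA o = (o, o) ∧ ({b | (o, b) ∈ Y}ᶜ.Countable → ∀ z, pA z = (o, ρ z)) := by
      by_cases hc : {b | (o, b) ∈ Y}ᶜ.Countable
      · refine ⟨fun z => (o, ρ z), by fun_prop, fun z => ?_, by simp only [hρo], fun _ _ => rfl⟩
        rcases r2 z with e | e
        · simp only [e]; exact hoo
        · exact (hCA2 _ e.1.1.2).2 hc
      · exact ⟨fun _ => (o, o), continuous_const, fun _ => hoo, rfl, fun h' => absurd h' hc⟩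
    obtain ⟨pB, b1, b2, b3, b4⟩ : ∃ pB : K → K × K, Continuous pB ∧ (∀ z, pB z ∈ Y) ∧
        pB o = (o, o) ∧ ({a | (a, o) ∈ Y}ᶜ.Countable → ∀ z, pB z = (ρ z, o)) := by
      by_cases hc : {a | (a, o) ∈ Y}ᶜ.Countable
      · refine ⟨fun z => (ρ z, o), by fun_prop, fun z => ?_, by simp only [hρo], fun _ _ => rfl⟩
        rcases r2 z with e | e
        · simp only [e]; exact hoo
        · exact (hCB2 _ e.1.2).2 hc
      · exact ⟨fun _ => (o, o), continuous_const, fun _ => hoo, rfl, fun h' => absurd h' hc⟩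
    obtain ⟨pD, d1, d2, d3, d4⟩ : ∃ pD : K → K × K, Continuous pD ∧ (∀ z, pD z ∈ Y) ∧
        pD o = (o, o) ∧ ({a | (a, a) ∈ Y}ᶜ.Countable → ∀ z, pD z = (ρ z, ρ z)) := by
      by_cases hc : {a | (a, a) ∈ Y}ᶜ.Countable
      · refine ⟨fun z => (ρ z, ρ z), by fun_prop, fun z => ?_, by simp only [hρo], fun _ _ => rfl⟩
        rcases r2 z with e | e
        · simp only [e]; exact hoo
        · exact (hCD2 _ e.2).2 hc
      · exact ⟨fun _ => (o, o), continuous_const, fun _ => hoo, rfl, fun h' => absurd h' hc⟩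
    let G : (K × K → ℝ) → K → ℝ := fun f z => f (pD z) - (f (pA z) + f (pB z) - f (o, o))
    have hG0 : ∀ f, G f o = 0 := fun f => by simp only [G, a3, b3, d3]; ring
    refine ⟨fun f p => f (pA p.2) + f (pB p.1) - f (o, o) + med (G f p.1) (G f p.2),
      ⟨fun z => Continuous.add (by fun_prop) (continuous_med (by fun_prop) (by fun_prop)),
        fun f hf => ?_⟩, ?_⟩
    · have c1 := hf.comp_continuous a1 a2
      have c2 := hf.comp_continuous b1 b2
      have c3 := hf.comp_continuous d1 d2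
      have c4 : Continuous (G f) := c3.sub ((c1.add c2).sub continuous_const)
      exact (((c1.comp continuous_snd).add (c2.comp continuous_fst)).sub continuous_const).add
        (continuous_med (c4.comp continuous_fst) (c4.comp continuous_snd))
    · rintro f ⟨a, b⟩ hy hyF
      have ea := r4 a hyF.1
      have eb := r4 b hyF.2
      rcases hF a b hy hyF.1 hyF.2 with e | e | e | e
      · simp only [e.1, e.2, a3, b3, hG0, med_self]
        ring
      · simp only [e.1, b3, hG0, med_zero_left, a4 e.2, eb]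
        ring
      · simp only [e.1, a3, hG0, med_zero_right, b4 e.2, ea]
        ring
      · simp only [e.1, med_self, G, d4 e.2, eb]
        ring
  obtain ⟨φ0, k1, k3⟩ := key
  obtain ⟨φ, f1, f2, -⟩ := glue (ι := ι ⊕ ι)
    (F := {p : K × K | (∀ i, p.1 ∉ U i) ∧ ∀ i, p.2 ∉ U i}) hY
    (Sum.elim (fun i => Prod.fst ⁻¹' U i) (fun i => Prod.snd ⁻¹' U i))
    (by
      rintro (i | i)
      · exact (r3 i).1.preimage continuous_fst
      · exact (r3 i).1.preimage continuous_snd)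
    (fun z => by
      simp only [mem_ofPred_eq, Sum.exists, Sum.elim_inl, Sum.elim_inr, mem_preimage]
      rw [not_and_or]
      simp) (C1 := 7) (by norm_num)
    (by
      rintro (i | i) Y' hY' hc
      · exact h.strip hc (r3 i).2 fun p hp => (hY' hp).2
      · exact Ext.swap (h.strip (hc.preimage continuous_swap) (r3 i).2 fun p hp => (hY' hp).2))
    φ0 k1 k3
  exact tembedded_of Y φ f1 f2

omit [T2Space K] [TotallyDisconnectedSpace K] in
theorem Ost.not_metrizable (h : Ost K o) : ¬ TopologicalSpace.MetrizableSpace K := by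
  intro hm
  let := TopologicalSpace.metrizableSpaceMetric K
  choose! U u1 u2 u3 u4 using h.loc
  obtain ⟨T, hT1, hT2⟩ := TopologicalSpace.isOpen_iUnion_countable
    (fun z : {z // z ≠ o} => U z.1) fun z => (u1 _ z.2).isOpen
  refine h.unc (((hT1.biUnion fun z _ => u4 _ z.2).insert o).mono fun z _ => ?_)
  by_cases hz : z = o
  · exact Or.inl hz
  · refine Or.inr ?_
    rw [hT2]
    exact mem_iUnion.2 ⟨⟨z, hz⟩, u2 z hz⟩

end Pool.Agent.H278Z.TS
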