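import Pool.Agent.H278Z.TS.Rec
import Pool.Agent.H278Z.TS.Top

namespace Pool.Agent.H278Z.TS

open Filter Topology Set
open Pool.Agent.Helper292.ForceCH H453Z.Kw

open Classical in
/-- the embedding into the Cantor cube -/
noncomputable def emb (h : Om → Pt → ℕ) (z : Pt) (δ : Om) : Bool := decide (X h z δ)

variable {S : Om → Set (Pt × Pt)} {h : Om → Pt → ℕ}

theorem emb_eq {z z' : Pt} {δ : Om} : emb h z δ = emb h z' δ ↔ (X h z δ ↔ X h z' δ) := by
  simp [emb]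

theorem eq_of_X {z : Pt} {β : Om} (h1 : X h z β) (h2 : ∀ δ < β, ¬ X h z δ) : z = β := by
  rcases h1 with e | e
  · exact e
  · obtain ⟨a, a1, rfl⟩ := exists_coe e.1
    exact absurd (X_self a) (h2 a a1)

theorem emb_inj : Function.Injective (emb h) := by
  have key : ∀ (a : Om) (z : Pt), emb h (a : Pt) = emb h z → z ≤ a := fun a z e =>
    ((emb_eq.1 (congrFun e a)).1 (X_self a)).le
  intro z z' e
  induction z using WithTop.recTopCoe with
  | top =>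
    induction z' using WithTop.recTopCoe with
    | top => rfl
    | coe b => exact absurd (key b ⊤ e.symm) (by simp)
  | coe a =>
    induction z' using WithTop.recTopCoe with
    | top => exact absurd (key a ⊤ e) (by simp)
    | coe b => exact le_antisymm (α := Pt) (key b _ e.symm) (key a _ e)

theorem countable_le (γ : Om) : {z : Pt | z ≤ γ}.Countable := by
  refine ((countable_Iic' γ).image WithTop.some).mono fun z hz => ?_
  induction z using WithTop.recTopCoe with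
  | top => exact absurd hz (by simp)
  | coe a => exact ⟨a, WithTop.coe_le_coe.1 hz, rfl⟩

theorem countable_of_tail {A : Set Pt} (γ : Om) (H : ∀ μ : Om, γ ≤ μ → (μ : Pt) ∉ A) :
    A.Countable := by
  refine ((countable_le γ).insert ⊤).mono fun z hz => ?_
  induction z using WithTop.recTopCoe with
  | top => exact Or.inl rfl
  | coe a =>
    exact Or.inr (WithTop.coe_le_coe.2 (not_le.1 fun e => H a e hz).le)

theorem exists_bound_pt {C : Set Pt} (hC : C.Countable) :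
    ∃ γ : Om, ∀ a : Om, (a : Pt) ∈ C → a < γ :=
  exists_bound' (hC.preimage WithTop.coe_injective)

theorem Q0.loc' {β : Om} (q : Q0 h β (h β)) {z : Pt} (hz : z < β) :
    ∃ F : Finset Om, (∀ δ ∈ F, δ < β) ∧ ∀ w : Pt, (∀ δ ∈ F, (X h w δ ↔ X h z δ)) →
      w < β ∧ h β w = h β z := by
  classical
  obtain ⟨F, f1, -, f3⟩ := q.cpt (h β z)
  obtain ⟨F', g1, -, g3⟩ := q.cpt (h β z - 1)
  refine ⟨F ∪ F', fun δ hδ => (Finset.mem_union.1 hδ).elim (f1 δ) (g1 δ), fun w hw => ?_⟩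
  obtain ⟨a, b⟩ := f3 z w (fun δ hδ => (hw δ (Finset.mem_union_left _ hδ)).symm) ⟨hz, le_rfl⟩
  refine ⟨a, by_contra fun hne => ?_⟩
  have c := (g3 w z (fun δ hδ => hw δ (Finset.mem_union_right _ hδ)) ⟨a, by omega⟩).2
  omega

theorem guess1 (hS : ∀ γ, ∀ p ∈ S γ, p.1 < γ ∧ p.2 < γ) (HQ : ∀ β, Q S h β (h β))
    (hG : ∀ S0 : Set (Pt × Pt),
      (∀ μ : Om, ∃ a b : Om, ((a : Pt), (b : Pt)) ∈ S0 ∧ μ < a ∧ μ < b) →
      ∃ γ, S γ ⊆ S0 ∧ ∀ F : Finset Om, (∀ δ ∈ F, δ < γ) →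
        ∃ a b : Om, ((a : Pt), (b : Pt)) ∈ S γ ∧ ∀ δ ∈ F, δ < a ∧ δ < b)
    (A : Set Pt) (hA : ∀ μ : Om, ∃ a : Om, (a : Pt) ∈ A ∧ μ < a) :
    ∃ γ : Om, ∀ μ, γ ≤ μ → ∃ n0, ∀ n, n0 ≤ n → ∃ z : Pt, (z ∈ A ∧ z < γ) ∧ z < μ ∧ h μ z = n := by
  obtain ⟨γ, g1, g2⟩ := hG {p | p.2 ∈ A} fun μ => by
    obtain ⟨a, a1, a2⟩ := hA μ
    exact ⟨a, a, a1, a2, a2⟩
  refine ⟨γ, fun μ hμ => ?_⟩
  obtain ⟨n0, hn0⟩ := persist1 hS HQ (Iio γ) (isLowerSet_Iio γ) γ γ ∅
    (fun μ hμ => ⟨not_lt.1 hμ, not_lt.1 hμ, by simp⟩) (fun F hF => by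
      obtain ⟨a, b, c1, c2⟩ := g2 F hF
      exact ⟨b, ⟨a, c1, by simp⟩, fun δ hδ e =>
        absurd (WithTop.coe_le_coe.1 e.le) (not_le.2 (c2 δ hδ).2)⟩) μ (not_lt.2 hμ)
  refine ⟨n0, fun n hn => ?_⟩
  obtain ⟨z, ⟨w, w1, -⟩, z2⟩ := hn0 n hn
  exact ⟨z, ⟨g1 w1, (hS _ _ w1).2⟩, z2⟩

variable [TopologicalSpace Pt] (hE : IsEmbedding (emb h))
include hE

theorem eventually_agree (z : Pt) (F : Finset Om) :
    ∀ᶠ w in 𝓝 z, ∀ δ ∈ F, (X h w δ ↔ X h z δ) := by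
  rw [eventually_all_finset]
  intro δ _
  have : Continuous fun w : Pt => emb h w δ :=
    (continuous_apply δ).comp hE.continuous
  have h2 := (this.tendsto z).eventually (p := fun b => b = emb h z δ) (by simp [nhds_discrete])
  exact h2.mono fun w hw => emb_eq.1 hw

theorem isClopen_of_det {C : Set Pt} (F : Finset Om)
    (hF : ∀ z z' : Pt, (∀ δ ∈ F, (X h z δ ↔ X h z' δ)) → z ∈ C → z' ∈ C) : IsClopen C := by
  constructor
  · rw [← isOpen_compl_iff, isOpen_iff_mem_nhds]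
    intro z hz
    filter_upwards [eventually_agree hE z F] with w hw e using hz (hF w z hw e)
  · rw [isOpen_iff_mem_nhds]
    intro z hz
    filter_upwards [eventually_agree hE z F] with w hw using hF z w (fun δ hδ => (hw δ hδ).symm) hz

theorem isClopen_X (δ : Om) : IsClopen {z : Pt | X h z δ} :=
  isClopen_of_det hE {δ} fun _ _ e hz => (e δ (by simp)).1 hz

theorem compactSpace (HQ : ∀ β, Q S h β (h β)) : CompactSpace Pt := by
  refine ⟨isCompact_iff_ultrafilter_le_nhds.2 fun 𝒰 _ => ?_⟩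
  have key : ∀ z : Pt, (∀ δ, ∀ᶠ w in (𝒰 : Filter Pt), (X h w δ ↔ X h z δ)) →
      (𝒰 : Filter Pt) ≤ 𝓝 z := by
    intro z hz
    rw [hE.isInducing.nhds_eq_comap, ← tendsto_iff_comap, tendsto_pi_nhds]
    intro δ
    rw [nhds_discrete, tendsto_pure]
    exact (hz δ).mono fun w hw => emb_eq.2 hw
  by_cases h0 : ∃ δ, ∀ᶠ w in (𝒰 : Filter Pt), X h w δ
  · obtain ⟨β0, hβ0, hmin⟩ := (wellFounded_lt (α := Om)).has_min _ h0
    refine ⟨(β0 : Pt), mem_univ _, key _ fun δ => ?_⟩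
    induction δ using WellFoundedLT.induction with
    | ind δ ih =>
      rcases lt_trichotomy δ β0 with h1 | rfl | h1
      · have : ¬ ∀ᶠ w in (𝒰 : Filter Pt), X h w δ := fun e => hmin δ e h1
        filter_upwards [Ultrafilter.eventually_not.2 this] with w hw
        exact ⟨fun e => absurd e hw, fun e => absurd (WithTop.coe_le_coe.1 e.le) (not_le.2 h1)⟩
      · filter_upwards [hβ0] with w hw using ⟨fun _ => X_self _, fun _ => hw⟩
      · have h2 : (β0 : Pt) < δ := WithTop.coe_lt_coe.2 h1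
        obtain ⟨F, f1, f2⟩ := (HQ δ).toQ0.loc' h2
        have h3 : ∀ᶠ w in (𝒰 : Filter Pt), ∀ ξ ∈ F, (X h w ξ ↔ X h (β0 : Pt) ξ) := by
          rw [eventually_all_finset]
          exact fun ξ hξ => ih ξ (f1 ξ hξ)
        filter_upwards [h3] with w hw
        obtain ⟨a, b⟩ := f2 w hw
        rw [X_lt a, X_lt h2, b]
  · refine ⟨(⊤ : Pt), mem_univ _, key _ fun δ => ?_⟩
    have : ¬ ∀ᶠ w in (𝒰 : Filter Pt), X h w δ := fun e => h0 ⟨δ, e⟩
    filter_upwards [Ultrafilter.eventually_not.2 this] with w hw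
    exact ⟨fun e => absurd e hw, fun e => absurd e.le (by simp)⟩

theorem mem_of_approx [CompactSpace Pt] [T2Space Pt] {A : Set Pt} (hA : IsClosed A) {β : Om}
    (H : ∀ F : Finset Om, (∀ δ ∈ F, δ < β) → ∃ z ∈ A, X h z β ∧ ∀ δ ∈ F, ¬ X h z δ) :
    (β : Pt) ∈ A := by
  classical
  obtain ⟨z, ⟨z1, z2⟩, z3⟩ := (hA.inter (isClopen_X hE β).isClosed).isCompact.inter_iInter_nonempty
    (fun δ : Iio β => {z : Pt | X h z δ}ᶜ) (fun δ => (isClopen_X hE δ.1).compl.isClosed) (by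
      intro u
      obtain ⟨z, a, b, c⟩ := H (u.image Subtype.val) (by
        intro δ hδ
        obtain ⟨x, -, rfl⟩ := Finset.mem_image.1 hδ
        exact x.2)
      exact ⟨z, ⟨a, b⟩, mem_iInter₂.2 fun δ hδ => c δ (Finset.mem_image_of_mem _ hδ)⟩)
  have : z = (β : Pt) := eq_of_X z2 fun δ hδ => mem_iInter.1 z3 ⟨δ, hδ⟩
  rw [← this]
  exact z1

theorem mem_of_meet [CompactSpace Pt] [T2Space Pt] (HQ : ∀ β, Q S h β (h β)) {A : Set Pt}
    (hA : IsClosed A) {μ : Om} (H : ∃ n0, ∀ n, n0 ≤ n → ∃ z : Pt, z ∈ A ∧ z < μ ∧ h μ z = n) :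
    (μ : Pt) ∈ A := by
  refine mem_of_approx hE hA fun F hF => ?_
  obtain ⟨n0, hn0⟩ := H
  obtain ⟨n1, hn1⟩ := (HQ μ).toQ0.big F
  obtain ⟨z, z1, z2, z3⟩ := hn0 (3 * (n0 + n1)) (by omega)
  exact ⟨z, z1, (X_lt z2).2 (by omega), fun δ hδ => (hn1 n1 le_rfl δ hδ (hF δ hδ)).1 z (by omega)⟩

section

variable (hS : ∀ γ, ∀ p ∈ S γ, p.1 < γ ∧ p.2 < γ) (HQ : ∀ β, Q S h β (h β))
  (hG : ∀ S0 : Set (Pt × Pt),
      (∀ μ : Om, ∃ a b : Om, ((a : Pt), (b : Pt)) ∈ S0 ∧ μ < a ∧ μ < b) →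
      ∃ γ, S γ ⊆ S0 ∧ ∀ F : Finset Om, (∀ δ ∈ F, δ < γ) →
        ∃ a b : Om, ((a : Pt), (b : Pt)) ∈ S γ ∧ ∀ δ ∈ F, δ < a ∧ δ < b)
include hS HQ hG

theorem dense_tail (A : Set Pt) (hA : ∀ μ : Om, ∃ a : Om, (a : Pt) ∈ A ∧ μ < a) :
    ∃ γ : Om, ∀ A' : Set Pt, IsClosed A' → (∀ z : Pt, z ∈ A → z < γ → z ∈ A') →
      ∀ μ, γ ≤ μ → (μ : Pt) ∈ A' := by
  have := compactSpace hE HQ
  have := hE.t2Space
  obtain ⟨γ, hγ⟩ := guess1 hS HQ hG A hA
  refine ⟨γ, fun A' h1 h2 μ hμ => mem_of_meet hE HQ h1 ?_⟩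
  obtain ⟨n0, hn0⟩ := hγ μ hμ
  refine ⟨n0, fun n hn => ?_⟩
  obtain ⟨z, z1, z2⟩ := hn0 n hn
  exact ⟨z, h2 z z1.1 z1.2, z2⟩

theorem exists_rho (γ0 : Om) : ∃ (γ : Om) (ρ : Pt → Pt), Continuous ρ ∧
    (∀ z, (γ0 : Pt) ≤ ρ z) ∧ ∀ z : Pt, ¬ z < γ → ρ z = z := by
  classical
  obtain ⟨γ, hγ⟩ := guess1 hS HQ hG {z | (γ0 : Pt) ≤ z} fun μ => by
    obtain ⟨a, ha⟩ := exists_bound' ((countable_singleton μ).insert γ0)
    exact ⟨a, WithTop.coe_le_coe.2 (ha γ0 (by simp)).le, ha μ (by simp)⟩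
  obtain ⟨n0, hn0⟩ := hγ γ le_rfl
  obtain ⟨t, t1, t2⟩ : ∃ t : ℕ → Pt, (∀ n, (γ0 : Pt) ≤ t n) ∧
      ∀ n, n0 ≤ n → t n < γ ∧ h γ (t n) = n := by
    choose! t ht using hn0
    refine ⟨fun n => if n0 ≤ n then t n else ⊤, fun n => ?_, fun n hn => ?_⟩
    · dsimp only
      split_ifs with e
      · exact (ht n e).1.1
      · exact le_top
    · simp only [if_pos hn]
      exact (ht n hn).2
  by_cases hγ0 : γ0 ≤ γ
  swap
  · exfalso
    exact absurd ((t1 n0).trans_lt (t2 n0 le_rfl).1) (by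
      rw [WithTop.coe_lt_coe]
      exact fun e => hγ0 e.le)
  let ρ : Pt → Pt := fun z => if z < γ then t (h γ z) else z
  refine ⟨γ, ρ, ?_, fun z => ?_, fun z hz => if_neg hz⟩
  · rw [hE.isInducing.continuous_iff]
    refine continuous_pi fun ξ => ?_
    obtain ⟨β, hβ⟩ := exists_bound' ((countable_singleton γ).insert ξ)
    obtain ⟨n1, hn1⟩ := almost_col (fun b _ => (HQ b).toQ0) (hβ γ (by simp)) ξ (hβ ξ (by simp))
    obtain ⟨F, f1, -, f3⟩ := (HQ γ).cpt (n0 + n1)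
    have key : ∀ z : Pt, z ∉ V (h γ) γ (n0 + n1) → (X h (ρ z) ξ ↔ X h z ξ) := by
      intro z hz
      by_cases e : z < γ
      · have e2 : n0 + n1 < h γ z := not_le.1 fun e' => hz ⟨e, e'⟩
        simp only [ρ, if_pos e]
        exact hn1 (h γ z) (by omega) _ _ (t2 _ (by omega)).1 e (t2 _ (by omega)).2 rfl
      · simp only [ρ, if_neg e]
    refine continuous_iff_continuousAt.2 fun z => (continuousAt_const (y := emb h (ρ z) ξ)).congr ?_
    by_cases hz : z ∈ V (h γ) γ (n0 + n1)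
    · obtain ⟨F', -, g2⟩ := (HQ γ).toQ0.loc' hz.1
      filter_upwards [eventually_agree hE z F'] with w hw
      obtain ⟨a, b⟩ := g2 w hw
      have : ρ w = ρ z := by
        simp only [ρ]
        rw [if_pos a, if_pos hz.1, b]
      simp only [Function.comp, this]
    · filter_upwards [eventually_agree hE z (insert ξ F)] with w hw
      have hw2 : w ∉ V (h γ) γ (n0 + n1) := fun e =>
        hz (f3 w z (fun δ hδ => hw δ (Finset.mem_insert_of_mem hδ)) e)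
      refine emb_eq.2 ?_
      rw [key z hz, key w hw2]
      exact (hw ξ (Finset.mem_insert_self _ _)).symm
  · simp only [ρ]
    split_ifs with e
    · exact t1 _
    · exact (WithTop.coe_le_coe.2 hγ0).trans (not_lt.1 e)

theorem two_dim (Y : Set (Pt × Pt)) (hY : IsClosed Y)
    (H : ∀ μ : Om, ∃ a b : Om, ((a : Pt), (b : Pt)) ∈ Y ∧ a ≠ b ∧ μ < a ∧ μ < b) :
    ∃ γ : Om, ∀ a b : Om, γ ≤ a → γ ≤ b → ((a : Pt), (b : Pt)) ∈ Y := by
  classical
  have := compactSpace hE HQ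
  have := hE.t2Space
  obtain ⟨γ, g1, g2⟩ := hG {p | p ∈ Y ∧ p.1 ≠ p.2} fun μ => by
    obtain ⟨a, b, a1, a2, a3⟩ := H μ
    exact ⟨a, b, ⟨a1, fun e => a2 (WithTop.coe_injective e)⟩, a3⟩
  have h0 := acc2_init HQ (hS γ) (fun p hp => (g1 hp).2) g2
  have h1 : ∀ a b : Om, γ ≤ a → a < b → ((a : Pt), (b : Pt)) ∈ Y := by
    intro a b ha hab
    refine mem_of_approx hE (A := {z : Pt | (z, (b : Pt)) ∈ Y}) (hY.preimage (by fun_prop))
      fun F hF => ?_
    have hF0 : ∀ δ ∈ insert a F, δ ≤ a := by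
      intro δ hδ
      rcases Finset.mem_insert.1 hδ with e | e
      · exact e.le
      · exact (hF δ e).le
    have hN : IsClosed {z : Pt | ∀ δ ∈ insert a F, (X h z δ ↔ X h (a : Pt) δ)} :=
      (isClopen_of_det hE (C := {z : Pt | ∀ δ ∈ insert a F, (X h z δ ↔ X h (a : Pt) δ)})
        (insert a F) fun z z' e hz δ hδ => (e δ hδ).symm.trans (hz δ hδ)).isClosed
    have hc : IsClosed (Prod.snd '' (Y ∩ Prod.fst ⁻¹'
        {z : Pt | ∀ δ ∈ insert a F, (X h z δ ↔ X h (a : Pt) δ)})) :=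
      ((hY.inter (hN.preimage continuous_fst)).isCompact.image continuous_snd).isClosed
    obtain ⟨n0, hn0⟩ := persist1 hS HQ (Iic a) (isLowerSet_Iic a) γ a (insert a F)
      (fun μ hμ => ⟨ha.trans (not_le.1 hμ).le, (not_le.1 hμ).le,
        fun δ hδ => (hF0 δ hδ).trans_lt (not_le.1 hμ)⟩)
      (split hS HQ ha (persist2 hS HQ h0 a ha) _ hF0) b (not_le.2 hab)
    obtain ⟨⟨z, w⟩, ⟨z1, z2⟩, z3⟩ := mem_of_meet hE HQ hc (μ := b) ⟨n0, fun n hn => by
      obtain ⟨w, ⟨z, w1, w2⟩, w3⟩ := hn0 n hn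
      exact ⟨w, ⟨(z, w), ⟨(g1 w1).1, w2⟩, rfl⟩, w3⟩⟩
    refine ⟨z, ?_, (z2 a (Finset.mem_insert_self _ _)).2 (X_self a), fun δ hδ e => ?_⟩
    · have : w = (b : Pt) := z3
      rw [this] at z1
      exact z1
    · exact absurd (WithTop.coe_le_coe.1 ((z2 δ (Finset.mem_insert_of_mem hδ)).1 e).le)
        (not_le.2 (hF δ hδ))
  obtain ⟨γ1, hγ1⟩ := dense_tail hE hS HQ hG {z | (γ : Pt) ≤ z} fun μ => by
    obtain ⟨a, ha⟩ := exists_bound' ((countable_singleton μ).insert γ)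
    exact ⟨a, WithTop.coe_le_coe.2 (ha γ (by simp)).le, ha μ (by simp)⟩
  refine ⟨γ1, fun a b ha hb => hγ1 {z : Pt | (z, (b : Pt)) ∈ Y} (hY.preimage (by fun_prop))
    (fun z z1 z2 => ?_) a ha⟩
  obtain ⟨c, c1, rfl⟩ := exists_coe z2
  exact h1 c b (WithTop.coe_le_coe.1 z1) (c1.trans_le hb)

theorem ost : Ost Pt (⊤ : Pt) := by
  refine ⟨fun hc => ?_, fun z hz => ?_, fun C hC ho => ?_, fun A hA => ?_, fun Y hY => ?_⟩
  · obtain ⟨γ, hγ⟩ := exists_bound_pt hc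
    exact lt_irrefl _ (hγ γ (mem_univ _))
  · induction z using WithTop.recTopCoe with
    | top => exact absurd rfl hz
    | coe a =>
      exact ⟨_, isClopen_X hE a, X_self a, fun e => absurd (X.le e) (by simp),
        (countable_le a).mono fun w hw => X.le hw⟩
  · obtain ⟨γ0, hγ0⟩ := exists_bound_pt hC
    obtain ⟨γ, ρ, r1, r2, r3⟩ := exists_rho hE hS HQ hG γ0
    refine ⟨ρ, r1, fun z hz => ?_, (countable_le γ).mono fun z hz => ?_, r3 _ (by simp)⟩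
    · have h2 := r2 z
      generalize ρ z = w at hz h2
      induction w using WithTop.recTopCoe with
      | top => exact ho hz
      | coe a => exact absurd (WithTop.coe_le_coe.1 h2) (not_le.2 (hγ0 a hz))
    · exact (not_not.1 fun e => hz (r3 z e)).le
  · by_cases hb : ∀ μ : Om, ∃ a : Om, (a : Pt) ∈ A ∧ μ < a
    · obtain ⟨γ, hγ⟩ := dense_tail hE hS HQ hG A hb
      exact Or.inr (countable_of_tail γ fun μ hμ e => e (hγ A hA (fun z a _ => a) μ hμ))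
    · push Not at hb
      obtain ⟨μ, hμ⟩ := hb
      obtain ⟨γ, hγ⟩ := exists_bound' (countable_singleton μ)
      exact Or.inl (countable_of_tail γ fun a ha e =>
        absurd (hμ a e) (not_le.2 ((hγ μ rfl).trans_le ha)))
  · have aux : ∀ (γ : Om) (z : Pt), z ∉ insert (⊤ : Pt) {z : Pt | z ≤ γ} → ∃ a : Om, γ < a ∧ z = a := by
      intro γ z hz
      induction z using WithTop.recTopCoe with
      | top => exact absurd (Or.inl rfl) hz
      | coe a => exact ⟨a, not_le.1 fun e => hz (Or.inr (WithTop.coe_le_coe.2 e)), rfl⟩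
    by_cases hb : ∀ μ : Om, ∃ a b : Om, ((a : Pt), (b : Pt)) ∈ Y ∧ a ≠ b ∧ μ < a ∧ μ < b
    · obtain ⟨γ, hγ⟩ := two_dim hE hS HQ hG Y hY hb
      refine ⟨_, (countable_le γ).insert ⊤, Or.inl fun a b ha hb => ?_⟩
      obtain ⟨a, a1, rfl⟩ := aux γ a ha
      obtain ⟨b, b1, rfl⟩ := aux γ b hb
      exact hγ a b a1.le b1.le
    · push Not at hb
      obtain ⟨γ, hγ⟩ := hb
      refine ⟨_, (countable_le γ).insert ⊤, Or.inr fun a b ha hb hab => ?_⟩
      obtain ⟨a, a1, rfl⟩ := aux γ a ha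
      obtain ⟨b, b1, rfl⟩ := aux γ b hb
      by_contra hne
      exact absurd (hγ a b hab (fun e => hne (by rw [e])) a1) (not_le.2 b1)

theorem separable : TopologicalSpace.SeparableSpace Pt := by
  obtain ⟨γ, hγ⟩ := dense_tail hE hS HQ hG univ fun μ => by
    obtain ⟨a, ha⟩ := exists_bound' (countable_singleton μ)
    exact ⟨a, mem_univ _, ha μ rfl⟩
  refine ⟨⟨_, (countable_le γ).insert ⊤, fun z => ?_⟩⟩
  induction z using WithTop.recTopCoe with
  | top => exact subset_closure (Or.inl rfl)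
  | coe a =>
    rcases le_total a γ with e | e
    · exact subset_closure (Or.inr (WithTop.coe_le_coe.2 e))
    · exact hγ _ isClosed_closure (fun z _ hz => subset_closure (Or.inr hz.le)) a e

end

omit [TopologicalSpace Pt] hE in
theorem main (hD : Diamond) : ∃ (K : Type) (_ : TopologicalSpace K), CompactSpace K ∧ T2Space K ∧
    TopologicalSpace.SeparableSpace K ∧ TExtendial (K × K) ∧
    ¬ TopologicalSpace.MetrizableSpace K := by
  obtain ⟨S, hS, hG⟩ := exists_guess2 hD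
  obtain ⟨h, HQ⟩ := exists_Q S hS
  let τ : TopologicalSpace Pt := TopologicalSpace.induced (emb h) inferInstance
  have hE : IsEmbedding (emb h) := ⟨⟨rfl⟩, emb_inj⟩
  have := compactSpace hE HQ
  have := hE.t2Space
  have : TotallyDisconnectedSpace Pt :=
    hE.isTotallyDisconnected_range.1 (isTotallyDisconnected_of_totallyDisconnectedSpace _)
  exact ⟨Pt, τ, inferInstance, inferInstance, separable hE hS HQ hG, (ost hE hS HQ hG).textendial,
    (ost hE hS HQ hG).not_metrizable⟩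

end Pool.Agent.H278Z.TS
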