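import Pool.Agent.H453Z.Kw.Stage

namespace Pool.Agent.H278Z.TS

open Filter Topology Set
open Pool.Agent.Helper292.ForceCH H453Z.Kw

/-- the points of the space -/
abbrev Pt : Type := WithTop Om

/-- `z` lies in the basic clopen set of `β` -/
def X (h : Om → Pt → ℕ) (z : Pt) (β : Om) : Prop := z = β ∨ (z < β ∧ h β z % 3 = 0)

/-- compact open subsets of the stage `β` -/
def Cpt (h : Om → Pt → ℕ) (β : Om) (C : Set Pt) : Prop :=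
  ∃ F : Finset Om, (∀ δ ∈ F, δ < β) ∧ (∀ z ∈ C, ∃ δ ∈ F, X h z δ) ∧
    ∀ z z', (∀ δ ∈ F, (X h z δ ↔ X h z' δ)) → z ∈ C → z' ∈ C

/-- saturated sets -/
def Sat (r : Pt → ℕ) (δ : Om) (C : Set Pt) : Prop :=
  ∀ z z' : Pt, z < δ → z' < δ → r z = r z' → z ∈ C → z' ∈ C

/-- unbounded sets -/
def Unb (h : Om → Pt → ℕ) (β : Om) (B : Set Pt) : Prop :=
  ∀ F : Finset Om, (∀ δ ∈ F, δ < β) → ∃ z ∈ B, ∀ δ ∈ F, ¬ X h z δ

/-- unbounded sets of separated pairs -/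
def Acc2 (h : Om → Pt → ℕ) (β : Om) (S : Set (Pt × Pt)) : Prop :=
  ∀ F : Finset Om, (∀ δ ∈ F, δ < β) → ∃ p ∈ S, (∀ δ ∈ F, ¬ X h p.1 δ ∧ ¬ X h p.2 δ) ∧
    ∃ C, Cpt h β C ∧ (∀ δ ∈ F, Sat (h δ) δ C) ∧ p.1 ∈ C ∧ p.2 ∉ C

/-- sublevel sets -/
def V (r : Pt → ℕ) (β : Om) (n : ℕ) : Set Pt := {z | z < β ∧ r z ≤ n}

structure Q0 (h : Om → Pt → ℕ) (β : Om) (r : Pt → ℕ) : Prop where
  cpt : ∀ n, Cpt h β (V r β n)
  prop : ∀ δ < β, ∃ n, ∀ z, X h z δ → r z ≤ n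
  sat : ∀ δ < β, ∃ n0, ∀ n, n0 ≤ n → Sat (h δ) δ (V r β n)

variable {h : Om → Pt → ℕ}

theorem X.le {z : Pt} {δ : Om} (hx : X h z δ) : z ≤ δ := by
  rcases hx with e | e
  · exact e.le
  · exact e.1.le

theorem X_self (δ : Om) : X h δ δ := Or.inl rfl

theorem X_lt {z : Pt} {δ : Om} (hz : z < δ) : X h z δ ↔ h δ z % 3 = 0 :=
  ⟨fun e => (e.resolve_left hz.ne).2, fun e => Or.inr ⟨hz, e⟩⟩

theorem Cpt.lt {β : Om} {C : Set Pt} (hC : Cpt h β C) {z : Pt} (hz : z ∈ C) : z < β := by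
  obtain ⟨F, h1, h2, -⟩ := hC
  obtain ⟨δ, a, b⟩ := h2 z hz
  exact b.le.trans_lt (WithTop.coe_lt_coe.2 (h1 δ a))

theorem Cpt.mono {β β' : Om} {C : Set Pt} (hC : Cpt h β C) (hb : β ≤ β') : Cpt h β' C := by
  obtain ⟨F, h1, h2⟩ := hC
  exact ⟨F, fun δ hδ => (h1 δ hδ).trans_le hb, h2⟩

theorem Cpt.union {β : Om} {C C' : Set Pt} (hC : Cpt h β C) (hC' : Cpt h β C') :
    Cpt h β (C ∪ C') := by
  classical
  obtain ⟨F, h1, h2, h3⟩ := hC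
  obtain ⟨F', h1', h2', h3'⟩ := hC'
  refine ⟨F ∪ F', fun δ hδ => (Finset.mem_union.1 hδ).elim (h1 δ) (h1' δ), ?_, ?_⟩
  · rintro z (hz | hz)
    · obtain ⟨δ, a, b⟩ := h2 z hz
      exact ⟨δ, Finset.mem_union_left _ a, b⟩
    · obtain ⟨δ, a, b⟩ := h2' z hz
      exact ⟨δ, Finset.mem_union_right _ a, b⟩
  · rintro z z' hzz (hz | hz)
    · exact Or.inl (h3 z z' (fun δ hδ => hzz δ (Finset.mem_union_left _ hδ)) hz)
    · exact Or.inr (h3' z z' (fun δ hδ => hzz δ (Finset.mem_union_right _ hδ)) hz)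

theorem Cpt.diff {β : Om} {C C' : Set Pt} (hC : Cpt h β C) (hC' : Cpt h β C') :
    Cpt h β (C \ C') := by
  classical
  obtain ⟨F, h1, h2, h3⟩ := hC
  obtain ⟨F', h1', h2', h3'⟩ := hC'
  refine ⟨F ∪ F', fun δ hδ => (Finset.mem_union.1 hδ).elim (h1 δ) (h1' δ), ?_, ?_⟩
  · rintro z hz
    obtain ⟨δ, a, b⟩ := h2 z hz.1
    exact ⟨δ, Finset.mem_union_left _ a, b⟩
  · rintro z z' hzz hz
    exact ⟨h3 z z' (fun δ hδ => hzz δ (Finset.mem_union_left _ hδ)) hz.1, fun hz' =>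
      hz.2 (h3' z' z (fun δ hδ => (hzz δ (Finset.mem_union_right _ hδ)).symm) hz')⟩

theorem cpt_basic {β : Om} (F : Finset Om) (hF : ∀ δ ∈ F, δ < β) :
    Cpt h β {z | ∃ δ ∈ F, X h z δ} :=
  ⟨F, hF, fun _ hz => hz, fun _ _ hzz ⟨δ, a, b⟩ => ⟨δ, a, (hzz δ a).1 b⟩⟩

theorem Sat.union {r : Pt → ℕ} {δ : Om} {C C' : Set Pt} (a : Sat r δ C) (b : Sat r δ C') :
    Sat r δ (C ∪ C') := by
  rintro z z' h1 h2 h3 (hz | hz)
  · exact Or.inl (a z z' h1 h2 h3 hz)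
  · exact Or.inr (b z z' h1 h2 h3 hz)

theorem sat_V (r : Pt → ℕ) (δ : Om) (n : ℕ) : Sat r δ (V r δ n) :=
  fun _ _ _ h2 h3 hz => ⟨h2, h3 ▸ hz.2⟩

theorem exists_nat_finset {ι : Type} (F : Finset ι) (P : ι → ℕ → Prop)
    (hP : ∀ i ∈ F, ∃ n0, ∀ n, n0 ≤ n → P i n) : ∃ n0, ∀ n, n0 ≤ n → ∀ i ∈ F, P i n := by
  have : ∀ᶠ n in atTop, ∀ i ∈ F, P i n := by
    rw [eventually_all_finset]
    exact fun i hi => eventually_atTop.2 (hP i hi)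
  exact eventually_atTop.1 this

theorem almost_of_col {δ μ : Om} (hc : ∀ ξ < μ, ∃ n0, ∀ n, n0 ≤ n → ∀ z z' : Pt, z < δ → z' < δ →
    h δ z = n → h δ z' = n → (X h z ξ ↔ X h z' ξ)) {C : Set Pt} (hC : Cpt h μ C) :
    ∃ n0, ∀ n, n0 ≤ n → ∀ z z' : Pt, z < δ → z' < δ → h δ z = n → h δ z' = n → z ∈ C → z' ∈ C := by
  obtain ⟨F, h1, -, h3⟩ := hC
  obtain ⟨n0, hn⟩ := exists_nat_finset F _ fun ξ hξ => hc ξ (h1 ξ hξ)
  exact ⟨n0, fun n hn0 z z' a b c d => h3 z z' fun ξ hξ => hn n hn0 ξ hξ z z' a b c d⟩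

theorem almost_col {β δ : Om} (H : ∀ b < β, Q0 h b (h b)) (hδ : δ < β) (ξ : Om) (hξ : ξ < β) :
    ∃ n0, ∀ n, n0 ≤ n → ∀ z z' : Pt, z < δ → z' < δ →
      h δ z = n → h δ z' = n → (X h z ξ ↔ X h z' ξ) := by
  induction ξ using WellFoundedLT.induction with
  | ind ξ ih =>
    rcases lt_trichotomy ξ δ with h1 | rfl | h1
    · obtain ⟨n, hn⟩ := (H δ hδ).prop ξ h1
      refine ⟨n + 1, fun m hm z z' _ _ c d => ⟨fun e => ?_, fun e => ?_⟩⟩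
      · have := hn z e
        omega
      · have := hn z' e
        omega
    · exact ⟨0, fun m _ z z' a b c d => by rw [X_lt a, X_lt b, c, d]⟩
    · obtain ⟨n0, hn0⟩ := (H ξ hξ).sat δ h1
      obtain ⟨n1, hn1⟩ := exists_nat_finset (Finset.range n0) _ fun k _ =>
        almost_of_col (fun ζ hζ => ih ζ hζ (hζ.trans hξ)) ((H ξ hξ).cpt k)
      have h2 : (δ : Pt) < ξ := WithTop.coe_lt_coe.2 h1
      have key : ∀ n, n1 ≤ n → ∀ z z' : Pt, z < δ → z' < δ → h δ z = n → h δ z' = n →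
          h ξ z' ≤ h ξ z := by
        intro n hn z z' a b c d
        rcases lt_or_ge (h ξ z) n0 with e | e
        · exact (hn1 n hn _ (Finset.mem_range.2 e) z z' a b c d ⟨a.trans h2, le_rfl⟩).2
        · exact (hn0 _ e z z' a b (c.trans d.symm) ⟨a.trans h2, le_rfl⟩).2
      refine ⟨n1, fun n hn z z' a b c d => ?_⟩
      rw [X_lt (a.trans h2), X_lt (b.trans h2),
        le_antisymm (key n hn z z' a b c d) (key n hn z' z b a d c)]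

theorem saturate {β : Om} (H : ∀ b < β, Q0 h b (h b)) (G : Finset Om) (hG : ∀ δ ∈ G, δ < β)
    {C : Set Pt} (hC : Cpt h β C) : ∃ C', Cpt h β C' ∧ C ⊆ C' ∧ (∀ δ ∈ G, Sat (h δ) δ C') ∧
      ∀ z ∈ C', z ∈ C ∨ ∃ δ ∈ G, z < (δ : Om) := by
  classical
  induction G using Finset.induction_on_max with
  | empty => exact ⟨C, hC, subset_rfl, by simp, fun z hz => Or.inl hz⟩
  | insert δ G hδ ih =>
    obtain ⟨C1, a1, a2, a3, a4⟩ := ih fun ξ hξ => hG ξ (Finset.mem_insert_of_mem hξ)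
    have hδβ := hG δ (Finset.mem_insert_self _ _)
    obtain ⟨n0, hn0⟩ := exists_nat_finset G _ fun ξ hξ => (H δ hδβ).sat ξ (hδ ξ hξ)
    obtain ⟨n1, hn1⟩ := almost_of_col (almost_col H hδβ) a1
    refine ⟨C1 ∪ V (h δ) δ (max n0 n1), a1.union (((H δ hδβ).cpt _).mono hδβ.le),
      a2.trans subset_union_left, fun ξ hξ => ?_, ?_⟩
    · rcases Finset.mem_insert.1 hξ with rfl | hξ
      · rintro z z' b1 b2 b3 (hz | hz)
        · rcases le_total (h ξ z) (max n0 n1) with e | e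
          · exact Or.inr ⟨b2, b3 ▸ e⟩
          · exact Or.inl (hn1 _ ((le_max_right _ _).trans e) z z' b1 b2 rfl b3.symm hz)
        · exact Or.inr ⟨b2, b3 ▸ hz.2⟩
      · exact (a3 ξ hξ).union (hn0 _ (le_max_left _ _) ξ hξ)
    · rintro z (hz | hz)
      · rcases a4 z hz with e | ⟨ξ, e1, e2⟩
        · exact Or.inl e
        · exact Or.inr ⟨ξ, Finset.mem_insert_of_mem e1, e2⟩
      · exact Or.inr ⟨δ, Finset.mem_insert_self _ _, hz.1⟩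

theorem exists_coe {z : Pt} {β : Om} (hz : z < β) : ∃ a : Om, a < β ∧ z = a := by
  induction z using WithTop.recTopCoe with
  | top => exact absurd hz (by simp)
  | coe a => exact ⟨a, WithTop.coe_lt_coe.1 hz, rfl⟩

theorem step {β : Om} (H : ∀ b < β, Q0 h b (h b)) (B : ℕ → Set Pt) (hB : ∀ j, ∀ z ∈ B j, z < β)
    (S : Set (Pt × Pt)) (G : Finset Om) (hG : ∀ δ ∈ G, δ < β)
    (n : ℕ) (W : Set Pt) (hW : Cpt h β W) (b : Pt) :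
    ∃ (W' : Set Pt) (b' : Pt), Cpt h β W' ∧ W ⊆ W' ∧ (∀ δ ∈ G, ∀ z, X h z δ → z ∈ W') ∧
      (b < β → b ∈ W') ∧ (∀ j ≤ n, Unb h β (B j) → ∃ z ∈ B j, z ∈ W' ∧ z ∉ W) ∧
      (∀ δ ∈ G, Sat (h δ) δ W') ∧
      (Acc2 h β S → ∃ a, (a, b') ∈ S ∧ a ∈ W' ∧ a ∉ W ∧ b' ∉ W') := by
  classical
  have h1 : ∀ j, ∃ E : Finset Om, (∀ δ ∈ E, δ < β) ∧
      (Unb h β (B j) → ∃ a ∈ E, (a : Pt) ∈ B j ∧ (a : Pt) ∉ W) := by
    intro j
    by_cases hu : Unb h β (B j)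
    · obtain ⟨F, f1, f2, -⟩ := hW
      obtain ⟨z, z1, z2⟩ := hu F f1
      obtain ⟨a, a1, rfl⟩ := exists_coe (hB j z z1)
      refine ⟨{a}, by simpa using a1, fun _ => ⟨a, by simp, z1, fun hw => ?_⟩⟩
      obtain ⟨δ, d1, d2⟩ := f2 _ hw
      exact z2 δ d1 d2
    · exact ⟨∅, by simp, fun h' => absurd h' hu⟩
  choose E hE1 hE2 using h1
  obtain ⟨Eb, hb1, hb2⟩ : ∃ E : Finset Om, (∀ δ ∈ E, δ < β) ∧ (b < β → ∃ a ∈ E, b = a) := by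
    by_cases hb : b < β
    · obtain ⟨a, a1, rfl⟩ := exists_coe hb
      exact ⟨{a}, by simpa using a1, fun _ => ⟨a, by simp, rfl⟩⟩
    · exact ⟨∅, by simp, fun h' => absurd h' hb⟩
  let F0 : Finset Om := G ∪ (Eb ∪ (Finset.range (n + 1)).biUnion E)
  have hF0 : ∀ δ ∈ F0, δ < β := by
    intro δ hδ
    simp only [F0, Finset.mem_union, Finset.mem_biUnion] at hδ
    rcases hδ with e | e | ⟨j, -, e⟩
    · exact hG δ e
    · exact hb1 δ e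
    · exact hE1 j δ e
  obtain ⟨W1, w1, w2, w3, -⟩ := saturate H G hG (hW.union (cpt_basic F0 hF0))
  have w4 : ∀ δ ∈ F0, ∀ z, X h z δ → z ∈ W1 := fun δ hδ z hz => w2 (Or.inr ⟨δ, hδ, hz⟩)
  have w5 : W ⊆ W1 := subset_union_left.trans w2
  obtain ⟨C, b', c1, c2, c3⟩ : ∃ (C : Set Pt) (b' : Pt), Cpt h β C ∧ (∀ δ ∈ G, Sat (h δ) δ C) ∧
      (Acc2 h β S → ∃ a, (a, b') ∈ S ∧ a ∈ C ∧ a ∉ W1 ∧ b' ∉ C ∧ b' ∉ W1) := by
    by_cases ha : Acc2 h β S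
    · obtain ⟨F, f1, f2, -⟩ := w1
      obtain ⟨p, p1, p2, C, p3, p4, p5, p6⟩ := ha (F ∪ G)
        fun δ hδ => (Finset.mem_union.1 hδ).elim (f1 δ) (hG δ)
      refine ⟨C, p.2, p3, fun δ hδ => p4 δ (Finset.mem_union_right _ hδ),
        fun _ => ⟨p.1, p1, p5, fun hw => ?_, p6, fun hw => ?_⟩⟩
      · obtain ⟨δ, d1, d2⟩ := f2 _ hw
        exact (p2 δ (Finset.mem_union_left _ d1)).1 d2
      · obtain ⟨δ, d1, d2⟩ := f2 _ hw
        exact (p2 δ (Finset.mem_union_left _ d1)).2 d2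
    · exact ⟨W1, b, w1, w3, fun h' => absurd h' ha⟩
  refine ⟨W1 ∪ C, b', w1.union c1, w5.trans subset_union_left,
    fun δ hδ z hz => Or.inl (w4 δ (Finset.mem_union_left _ hδ) z hz), fun hb => ?_,
    fun j hj hu => ?_, fun δ hδ => (w3 δ hδ).union (c2 δ hδ), fun ha => ?_⟩
  · obtain ⟨a, a1, rfl⟩ := hb2 hb
    exact Or.inl (w4 a (by simp [F0, a1]) _ (X_self a))
  · obtain ⟨a, a1, a2, a3⟩ := hE2 j hu
    refine ⟨a, a2, Or.inl (w4 a ?_ _ (X_self a)), a3⟩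
    simp only [F0, Finset.mem_union, Finset.mem_biUnion]
    exact Or.inr (Or.inr ⟨j, Finset.mem_range.2 (by omega), a1⟩)
  · obtain ⟨a, a1, a2, a3, a4, a5⟩ := c3 ha
    exact ⟨a, a1, Or.inr a2, fun e => a3 (w5 e), fun e => e.elim a5 a4⟩

theorem stage2 {β : Om} (H : ∀ b < β, Q0 h b (h b)) (B : ℕ → Set Pt)
    (hB : ∀ j, ∀ z ∈ B j, z < β) (S : ℕ → Set (Pt × Pt)) (hS : ∀ j, ∀ p ∈ S j, p.1 < β ∧ p.2 < β) :
    ∃ r : Pt → ℕ, Q0 h β r ∧ (∀ j, Unb h β (B j) → ∃ n0, ∀ n, n0 ≤ n → ∃ z ∈ B j, r z = n) ∧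
      ∀ j, Acc2 h β (S j) → ∀ n0 i : ℕ, ∃ n, n0 ≤ n ∧ n % 3 = i % 3 ∧
        ∃ p ∈ S j, r p.1 = n ∧ r p.2 = n + 1 := by
  classical
  obtain ⟨c, hc⟩ := Set.countable_iff_exists_injOn.1 (countable_Iio' β)
  have hfin : ∀ n, {δ | δ < β ∧ c δ ≤ n}.Finite := fun n =>
    Set.Finite.of_finite_image ((finite_Iic n).subset (by rintro _ ⟨δ, hδ, rfl⟩; exact hδ.2))
      (hc.mono fun δ hδ => hδ.1)
  let G : ℕ → Finset Om := fun n => (hfin n).toFinset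
  have hG : ∀ n δ, δ ∈ G n ↔ δ < β ∧ c δ ≤ n := fun n δ => by simp [G]
  have hst := fun (n : ℕ) (s : {W : Set Pt // Cpt h β W} × Pt) =>
    step H B hB (S (n / 3).unpair.1) (G n) (fun δ hδ => ((hG n δ).1 hδ).1) n s.1.1 s.1.2 s.2
  choose nW nb s1 s2 s3 s4 s5 s6 s7 using hst
  let st : ℕ → {W : Set Pt // Cpt h β W} × Pt := fun n =>
    Nat.rec (⟨∅, ∅, by simp, by simp, by simp⟩, ⊤) (fun n s => (⟨nW n s, s1 n s⟩, nb n s)) n
  let W : ℕ → Set Pt := fun n => (st n).1.1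
  have hW : ∀ n, W (n + 1) = nW n (st n) := fun n => rfl
  have hb : ∀ n, (st (n + 1)).2 = nb n (st n) := fun n => rfl
  have hmono : Monotone W := monotone_nat_of_le_succ fun n => s2 n (st n)
  have hex : ∀ z : Pt, z < β → ∃ n, z ∈ W n := by
    intro z hz
    obtain ⟨a, a1, rfl⟩ := exists_coe hz
    exact ⟨c a + 1, s3 _ _ a ((hG _ _).2 ⟨a1, le_rfl⟩) _ (X_self a)⟩
  let r : Pt → ℕ := fun z => if hz : ∃ n, z ∈ W n then Nat.find hz else 0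
  have hr : ∀ (z : Pt) n, z < β → (r z ≤ n ↔ z ∈ W n) := by
    intro z n hz
    simp only [r, dif_pos (hex z hz), Nat.find_le_iff]
    exact ⟨fun ⟨m, a, b⟩ => hmono a b, fun a => ⟨n, le_rfl, a⟩⟩
  have hV : ∀ n, V r β n = W n := fun n => Set.ext fun z =>
    ⟨fun e => (hr z n e.1).1 e.2, fun e => ⟨(st n).1.2.lt e, (hr z n ((st n).1.2.lt e)).2 e⟩⟩
  have hr2 : ∀ z n, z ∈ W (n + 1) → z ∉ W n → r z = n + 1 := by
    intro z n a b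
    have hz := (st (n + 1)).1.2.lt a
    have a' := (hr z (n + 1) hz).2 a
    have b' := mt (hr z n hz).1 b
    omega
  refine ⟨r, ⟨fun n => hV n ▸ (st n).1.2, fun δ hδ => ⟨c δ + 1, fun z hz => ?_⟩,
    fun δ hδ => ⟨c δ + 1, fun n hn => ?_⟩⟩, fun j hu => ⟨j + 1, fun n hn => ?_⟩,
    fun j ha n0 i => ?_⟩
  · exact (hr z _ (hz.le.trans_lt (WithTop.coe_lt_coe.2 hδ))).2
      (s3 _ _ δ ((hG _ _).2 ⟨hδ, le_rfl⟩) _ hz)
  · obtain ⟨m, rfl⟩ : ∃ m, n = m + 1 := ⟨n - 1, by omega⟩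
    rw [hV, hW]
    exact s6 _ _ δ ((hG _ _).2 ⟨hδ, by omega⟩)
  · obtain ⟨m, rfl⟩ : ∃ m, n = m + 1 := ⟨n - 1, by omega⟩
    obtain ⟨z, z1, z2, z3⟩ := s5 m (st m) j (by omega) hu
    exact ⟨z, z1, hr2 z m z2 z3⟩
  · let m := 3 * Nat.pair j n0 + (i + 2) % 3
    have hm : (m / 3).unpair.1 = j := by
      have : m / 3 = Nat.pair j n0 := by simp only [m]; omega
      rw [this, Nat.unpair_pair]
    obtain ⟨a, a1, a2, a3, a4⟩ := s7 m (st m) (by rwa [hm])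
    rw [hm] at a1
    have := Nat.right_le_pair j n0
    refine ⟨m + 1, by simp only [m]; omega, by simp only [m]; omega, _, a1, hr2 a m a2 a3,
      hr2 _ (m + 1) ?_ a4⟩
    exact s4 (m + 1) (st (m + 1)) (hS j _ a1).2

end Pool.Agent.H278Z.TS
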